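import Pool.Agent.Lib.BCC.Geo

/-! Existence of the chain data. -/

noncomputable section

open Finset Filter

namespace Pool.Agent.Lib.BCC

open CAT0

namespace Ctx

variable {Γ X : Type} [Group Γ] [MetricSpace X] [MulAction Γ X] (c : Ctx Γ X) [CompleteSpace X]
  [LinearOrder Γ] [IsIsometricSMul Γ X]

omit [CompleteSpace X] in
lemma S_smul (g : Γ) {σ : Finset Γ} (h : c.S σ) : c.S (σ.image (g * ·)) :=
  ⟨g • h.choose, (smul_mem_lens g).2 h.choose_spec⟩

instance : MulAction Γ (Subtype c.S) where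
  smul g σ := ⟨σ.1.image (g * ·), c.S_smul g σ.2⟩
  one_smul σ := Subtype.ext (by
    change σ.1.image (1 * ·) = σ.1
    simp)
  mul_smul g h σ := Subtype.ext (by
    change σ.1.image (g * h * ·) = (σ.1.image (h * ·)).image (g * ·)
    rw [image_image]
    exact congrArg (image · σ.1) (funext fun v => mul_assoc g h v))

omit [CompleteSpace X] in
lemma smul_val (g : Γ) (σ : Subtype c.S) : (g • σ).1 = σ.1.image (g * ·) := rfl

omit [CompleteSpace X] in
lemma pi_sup (g : Γ) (σ : Finset Γ) (h : c.S σ) : Sp c.S (col (pi0 g) σ) := by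
  rw [col_pi0]
  exact sp_single (c.S_smul g h) _

/-- The action on chains. -/
def π : Γ →* E (Subtype c.S) where
  toFun g := res c.S (pi0 g)
  map_one' := by rw [pi0_one, res_one]
  map_mul' g h := by rw [pi0_mul, res_mul _ (c.pi_sup h)]

omit [CompleteSpace X] in
lemma π_col (g : Γ) (σ : Subtype c.S) :
    col (c.π g) σ = Finsupp.single (g • σ) (eps g σ.1) := by
  classical
  ext τ
  change col (res c.S (pi0 g)) σ τ = _
  rw [col_res_apply, col_pi0, Finsupp.single_apply, Finsupp.single_apply]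
  exact if_congr (Subtype.ext_iff (a1 := g • σ)).symm rfl rfl

omit [CompleteSpace X] [IsIsometricSMul Γ X] in
lemma abs_eps (g : Γ) (σ : Finset Γ) : |eps g σ| = 1 := by
  rcases mul_self_eq_one_iff.1 (eps_sq g σ) with h | h <;> simp [h]

lemma P_image (g : Γ) {σ : Finset Γ} (h : c.S σ) :
    c.P c.o (σ.image (g * ·)) = g • c.P (g⁻¹ • c.o) σ := by
  rw [← c.P_smul g _ h, smul_inv_smul]

lemma W_image (g : Γ) {σ : Finset Γ} (h : c.S σ) :
    c.W c.o (σ.image (g * ·)) = c.W (g⁻¹ • c.o) σ := by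
  rw [W, W, c.P_image g h, ← dist_smul g (g⁻¹ • c.o), smul_inv_smul]

omit [CompleteSpace X] [LinearOrder Γ] in
lemma dist_inv (g : Γ) : dist c.o (g⁻¹ • c.o) = dist c.o (g • c.o) := by
  rw [← dist_smul g, smul_inv_smul, dist_comm]

lemma p_far (g : Γ) {σ : Finset Γ} (h : c.S σ) :
    dist (c.P c.o (σ.image (g * ·))) (g • c.P c.o σ) * c.W c.o σ ≤
      8 * (c.ρ + 2) * dist c.o (g • c.o) := by
  rw [c.P_image g h, dist_smul, dist_comm, ← c.dist_inv g]
  exact (c.isProj c.o h).lens_close (hX := c.hX) c.R0 (c.isProj _ h)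

omit [LinearOrder Γ] [IsIsometricSMul Γ X] in
lemma second (y y' : X) {σ τ : Finset Γ} (h : c.S σ) (h1 : τ ⊆ σ) (h2 : τ.Nonempty) :
    |c.W y' σ - c.W y σ - (c.W y' τ - c.W y τ)| * c.W y σ ≤ 8 * (c.ρ + 2) * dist y y' := by
  have h3 := c.S_anti h h1
  have key : ∀ a ∈ c.L σ, ∀ b ∈ c.L τ, |dist y a - dist y b - dist y' a + dist y' b| * c.W y σ ≤
      8 * (c.ρ + 2) * dist y y' := fun a ha b hb => by
    have e1 := four c.hX y y' a b
    have e2 := lens_diam h2 (lens_anti _ _ h1 ha) hb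
    have e3 := mul_le_mul_of_nonneg_left ((c.W_le y ha).trans (le_add_of_nonneg_right
      (dist_nonneg (x := y) (y := b)))) (abs_nonneg (dist y a - dist y b - dist y' a + dist y' b))
    nlinarith [mul_le_mul_of_nonneg_left e2 (dist_nonneg (x := y) (y := y'))]
  have w0 : 0 ≤ c.W y σ := dist_nonneg
  rcases le_total 0 (c.W y' σ - c.W y σ - (c.W y' τ - c.W y τ)) with h4 | h4
  · refine le_trans (mul_le_mul_of_nonneg_right ?_ w0)
      (key _ (c.isProj y h).1 _ (c.isProj y' h3).1)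
    rw [abs_of_nonneg h4]
    linarith [neg_le_abs (dist y (c.P y σ) - dist y (c.P y' τ) - dist y' (c.P y σ) +
      dist y' (c.P y' τ)), c.W_le y' (c.isProj y h).1, c.W_le y (c.isProj y' h3).1, W.eq_1 c y σ,
      W.eq_1 c y' τ]
  · refine le_trans (mul_le_mul_of_nonneg_right ?_ w0)
      (key _ (c.isProj y' h).1 _ (c.isProj y h3).1)
    rw [abs_of_nonpos h4]
    linarith [le_abs_self (dist y (c.P y' σ) - dist y (c.P y τ) - dist y' (c.P y' σ) +
      dist y' (c.P y τ)), c.W_le y (c.isProj y' h).1, c.W_le y' (c.isProj y h3).1, W.eq_1 c y' σ,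
      W.eq_1 c y τ]

lemma col_h_comm (g : Γ) (σ : Finset Γ) :
    ms (col (c.hh c.o * pi0 g - pi0 g * c.hh c.o) σ) ≤
      4 * c.N * dist (c.P c.o (σ.image (g * ·))) (g • c.P c.o σ) := by
  rw [col_sub, col_mul (pi0 g), col_hh, ← col_mul, pi0_Cr, ← c.mu_smul, col_mul, col_mul, col_pi0,
    apply_single, apply_single, col_hh, ← smul_sub, ← col_sub, ← map_sub, ms_smul, abs_eps, one_mul]
  exact (ms_Cr _ _).trans (c.mu_lip _ _)

lemma col_i_comm (g : Γ) {σ : Finset Γ} (h : c.S σ) :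
    ms (col (c.ii c.o * pi0 g - pi0 g * c.ii c.o) σ) ≤
      c.N * dist (c.P c.o (σ.image (g * ·))) (g • c.P c.o σ) := by
  rw [col_sub, col_mul (pi0 g), col_ii, ← col_mul, pi0_ct g _ (c.chi (g • c.P c.o σ))
    fun u => by rw [chi, chi, mul_smul, dist_smul], col_mul, col_mul, col_pi0,
    apply_single, apply_single, col_ii, ← smul_sub, ← col_sub, ct_sub, ms_smul, abs_eps, one_mul]
  exact c.ms_ct dist_nonneg (c.chi_lip _ _) (c.S_smul g h)

open Classical in
/-- The barycentre. -/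
def bar (σ : Finset Γ) : X :=
  if h : σ.Nonempty then (exists_isBary c.hX (fun v : Γ => v • c.o) h).choose else c.o

omit [LinearOrder Γ] [IsIsometricSMul Γ X] in
lemma isBary {σ : Finset Γ} (h : σ.Nonempty) : IsBary (fun v : Γ => v • c.o) σ (c.bar σ) := by
  rw [bar, dif_pos h]
  exact (exists_isBary c.hX (fun v : Γ => v • c.o) h).choose_spec

theorem nonempty_cd : Nonempty (CD Γ X c.o) := by
  have S0 : c.S ∅ := ⟨c.o, fun _ h => absurd h (notMem_empty _)⟩
  have N1 : (c.N : ℝ) ≤ (2 ^ c.N : ℕ) := Nat.cast_le.2 Nat.lt_two_pow_self.le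
  have N2 : (1 : ℝ) ≤ (2 ^ c.N : ℕ) := by exact_mod_cast Nat.one_le_two_pow
  have ne : ∀ σ : Subtype c.S, σ ≠ ⟨∅, S0⟩ → σ.1.Nonempty := fun σ h =>
    nonempty_iff_ne_empty.2 fun h1 => h (Subtype.ext h1)
  have dS : ∀ σ, c.S σ → Sp c.S (col (ct fun _ => 1) σ) := fun σ h => (c.dd_sup h).mono fun _ h => h.1
  have hS : ∀ z σ, c.S σ → Sp c.S (col (c.hh z) σ) := fun z σ h => (c.hh_sup z h).mono fun _ h => h.1
  have iS : ∀ σ, c.S σ → Sp c.S (col (c.ii c.o) σ) := fun σ h => (c.ii_sup _ h).mono fun _ h => h.1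
  set d : E (Subtype c.S) := res c.S (ct fun _ => 1) with hd
  have dd : d * d = 0 := by rw [hd, ← res_mul _ dS, ct_sq, res_zero]
  have ds : ∀ z σ τ, col d σ τ ≠ 0 → (τ.1.card + 1 = σ.1.card ∧ c.W z τ.1 ≤ c.W z σ.1) ∧ τ.1 ⊆ σ.1 :=
    fun z σ τ h => by
      rw [hd, col_res_apply] at h
      have h1 := c.dd_sup σ.2 _ h
      exact ⟨⟨h1.2.1, c.W_mono z σ.2 h1.2.2⟩, h1.2.2⟩
  have dm : ∀ σ, ms (col d σ) ≤ c.N := fun σ =>
    (ms_res _ σ).trans ((c.ms_ct zero_le_one (by simp) σ.2).trans (mul_one _).le)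
  have hs : ∀ z (σ τ : Subtype c.S), col (res c.S (c.hh z)) σ τ ≠ 0 →
      τ.1.card = σ.1.card + 1 ∧ c.P z τ.1 = c.P z σ.1 := fun z σ τ h => by
    rw [col_res_apply] at h
    exact (c.hh_sup z σ.2 _ h).2
  have KK : ∀ δ : ℝ, 0 < δ → ∃ t₀ : ℝ, 0 < t₀ ∧ ∀ t, t₀ ≤ t → ∀ z σ, ms (col (cj
      (fun σ => c.W z σ.1) t (1 - d * res c.S (c.hh z) - res c.S (c.hh z) * d)) σ) ≤ δ := by
    intro δ hδ
    obtain ⟨t₀, h0, h1⟩ := c.K_bound hδ
    refine ⟨t₀, h0, fun t ht z σ => ?_⟩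
    rw [hd, ← res_mul _ (hS z), ← res_mul _ dS, ← res_one, ← res_sub, ← res_sub, ms_col_cj]
    exact (nm_res (φ := fun τ => Real.exp (t * (c.W z τ - c.W z σ.1)))
      (fun _ => (Real.exp_pos _).le) _ σ).trans (h1 t ht z σ.1 σ.2)
  obtain ⟨t₀, t0, t1⟩ := KK (1 / 2) (by norm_num)
  obtain ⟨J, J1, J2, J3⟩ := exists_J dd (deg := fun σ => σ.1.card) (fun σ => c.card_le σ.2)
    (fun z σ => c.W z σ.1) c.o (fun _ => dist_nonneg) (fun σ τ h => (ds c.o σ τ h).1) dm
    (M := fun A => 2 * Real.exp (t₀ * A)) (fun _ => by positivity)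
    (fun z => fill_of (h := res c.S (c.hh z)) t0.le dd (fun _ => dist_nonneg) (c.W_fin z)
      (fun σ τ h => ⟨by rw [W, W, (hs z σ τ h).2], (hs z σ τ h).1⟩)
      (fun σ => (ms_res _ σ).trans (c.ms_hh z _)) (fun σ τ h => (ds z σ τ h).1.symm)
      (t1 t₀ le_rfl z))
    (fun x y τ => c.W_lip x y τ.2) (fun n σ => toward c.hX c.o (c.P c.o σ.1) n)
    (c := 6 * (c.ρ + 2)) (by linarith [c.R0]) (fun σ => by simp)
    (fun n σ => (dist_toward_toward c.hX _ _ (by positivity) (by positivity)).trans (by simp))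
    (fun n σ τ h h1 => (dist_toward_le c.hX _ _ _ _ (by positivity)).trans (by
      linarith [dist_self c.o, lens_diam (card_ne_zero.1 h1)
        (lens_anti _ _ (ds c.o σ τ h).2 (c.isProj c.o σ.2).1) (c.isProj c.o τ.2).1]))
    (fun n σ h => by
      rw [toward_of_le c.hX h]
      exact (c.W_le _ (c.isProj c.o σ.2).1).trans (dist_self _).le)
    (fun n σ => by
      rw [dist_left_toward c.hX _ _ (by positivity)]
      exact min_le_right _ _)
    (fun x τ h => by rw [card_eq_zero.1 h, W, P_empty, dist_self])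
  have ws : ∀ (g : Γ) (σ : Subtype c.S), |c.W c.o (g • σ).1 - c.W c.o σ.1| ≤ dist c.o (g • c.o) :=
    fun g σ => by
      rw [smul_val, c.W_image g σ.2, ← c.dist_inv g, dist_comm]
      exact (c.isProj _ σ.2).dist_sub_le (c.isProj _ σ.2)
  have pd : ∀ g, c.π g * d = d * c.π g := fun g => by
    change res c.S (pi0 g) * d = d * res c.S (pi0 g)
    rw [hd, ← res_mul _ dS, ← res_mul _ (c.pi_sup g), pi0_ct g _ (fun _ => 1) fun _ => rfl]
  have cm : ∀ (T : E (Finset Γ)) (A : ℝ) (g : Γ), 0 ≤ A → (∀ σ, c.S σ → Sp c.S (col T σ)) →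
      (∀ σ, c.S σ → ms (col (T * pi0 g - pi0 g * T) σ) ≤
        A * dist (c.P c.o (σ.image (g * ·))) (g • c.P c.o σ)) → Tendsto
      (fun σ => ms (col (res c.S T * c.π g - c.π g * res c.S T) σ)) cofinite (nhds 0) := by
    intro T A g hA h1 h2
    refine tendsto_of_mul_le (c.W_fin c.o) (fun _ => ms_nonneg _)
      (C := A * (8 * (c.ρ + 2) * dist c.o (g • c.o))) fun σ => ?_
    change ms (col (res c.S T * res c.S (pi0 g) - res c.S (pi0 g) * res c.S T) σ) * _ ≤ _
    rw [← res_mul _ h1, ← res_mul _ (c.pi_sup g), ← res_sub]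
    refine (mul_le_mul_of_nonneg_right ((ms_res _ σ).trans (h2 σ.1 σ.2)) dist_nonneg).trans ?_
    rw [mul_assoc]
    exact mul_le_mul_of_nonneg_left (c.p_far g σ.2) hA
  have w0 : ∀ σ : Subtype c.S, 0 ≤ c.W c.o σ.1 := fun _ => dist_nonneg
  have dc : ∀ t : ℝ, 0 < t → ∀ (u : ℝ) (g : Γ), Tendsto
      (fun σ => ms (col (cj (fun σ => c.W c.o σ.1) t d * cj (fun σ => c.W c.o σ.1) u (c.π g) -
        cj (fun σ => c.W c.o σ.1) u (c.π g) * cj (fun σ => c.W c.o σ.1) t d) σ))
      cofinite (nhds 0) := by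
    intro t ht u g
    have h0 : 0 ≤ 8 * (c.ρ + 2) * dist c.o (g⁻¹ • c.o) :=
      mul_nonneg (by linarith [c.R0]) dist_nonneg
    refine d_comm_of (fun σ => abs_eps g σ.1) (c.π_col g) (pd g) dm w0 (c.W_fin c.o) (ws g) h0
      (fun σ τ h => ⟨(ds c.o σ τ h).1.2, ?_⟩) ht u
    rcases τ.1.eq_empty_or_nonempty with h1 | h1
    · exact Or.inl (by rw [h1, W, P_empty, dist_self])
    · rw [smul_val, smul_val, c.W_image g σ.2, c.W_image g τ.2]
      exact Or.inr (c.second _ _ σ.2 (ds c.o σ τ h).2 h1)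
  exact ⟨{
    Δ := Subtype c.S
    nil := ⟨∅, S0⟩
    deg := fun σ => σ.1.card
    N := 2 ^ c.N
    R := c.ρ + 2
    p := fun σ => c.P c.o σ.1
    b := fun σ => c.bar σ.1
    w := fun σ => c.W c.o σ.1
    sg := fun g σ => eps g σ.1
    π := c.π
    d := d
    h := res c.S (c.hh c.o)
    i := res c.S (c.ii c.o)
    J := J
    smul_nil := fun g => Subtype.ext (image_empty _)
    deg_zero := fun σ => card_eq_zero.trans (Subtype.ext_iff (a2 := ⟨∅, S0⟩)).symm
    deg_smul := fun g σ => card_image_of_injective _ (mul_right_injective g)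
    deg_le := fun σ => (c.card_le σ.2).trans Nat.lt_two_pow_self.le
    R_pos := c.R0
    p_nil := c.P_empty _
    w_eq := fun _ => rfl
    w_fin := c.W_fin c.o
    w_smul := ws
    p_fib := fun x => by
      classical
      refine ⟨(c.near x).powerset.subtype c.S, ?_, fun σ h => mem_subtype.2 (mem_powerset.2
        (c.sub_near (h ▸ (c.isProj c.o σ.2).1)))⟩
      rw [card_subtype]
      refine (card_filter_le _ _).trans ?_
      rw [card_powerset]
      exact Nat.pow_le_pow_right two_pos (c.card x)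
    p_smul := fun g σ => by
      rw [smul_val, c.P_image g σ.2, dist_smul, ← c.dist_inv g, dist_comm]
      exact (c.isProj _ σ.2).lip (c.isProj _ σ.2) (isCvx_lens c.hX _ _ _)
    p_far := fun g σ => c.p_far g σ.2
    b_smul := fun g σ h => (c.isBary ((ne σ h).image _)).unique c.hX ((ne σ h).image _)
      ((c.isBary (ne σ h)).smul g)
    b_near := fun σ h => (c.isBary (ne σ h)).dist_le c.hX (ne σ h) (c.isProj c.o σ.2).1
    sg_sq := fun g σ => mul_self_eq_one_iff.1 (eps_sq g σ.1)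
    sg_nil := fun g => by simp [eps]
    π_col := c.π_col
    d_sq := dd
    h_sq := by
      rw [← res_mul _ (hS c.o), ← res_zero]
      exact res_congr fun σ h => by rw [c.hh_hh c.o h (fun x => Cr (c.mu x)) (c.col_hh c.o), Cr_sq]
    i_sq := by
      rw [← res_mul _ iS, ← res_zero]
      exact res_congr fun σ h => by rw [c.ii_ii c.o h (fun x => ct (c.chi x)) (c.col_ii c.o), ct_sq]
    ih := by
      rw [← res_mul _ iS, ← res_mul _ (hS c.o), ← res_add, ← res_one]
      exact res_congr fun σ h => by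
        rw [col_add, c.hh_hh c.o h (fun x => ct (c.chi x)) (c.col_ii c.o),
          c.ii_ii c.o h (fun x => Cr (c.mu x)) (c.col_hh c.o), ← col_add, ct_Cr, c.sum_mu _ fun _ => c.chi_one, one_smul]
    dJ := J1
    π_d := pd
    d_sup := fun σ τ h => (ds c.o σ τ h).1
    h_sup := hs c.o
    i_sup := fun σ τ h => by
      rw [col_res_apply] at h
      exact (c.ii_sup _ σ.2 _ h).2
    J_sup := J2
    d_ms := fun σ => (dm σ).trans N1
    h_ms := fun σ => (ms_res _ σ).trans ((c.ms_hh _ _).trans N2)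
    i_ms := fun σ => (ms_res _ σ).trans (by
      rw [col_ii]
      exact (c.ms_ct zero_le_one (c.abs_chi _) σ.2).trans (by rwa [mul_one]))
    J_ms := J3
    K_ms := fun δ hδ => (KK δ hδ).imp fun t h => ⟨h.1, fun t ht => h.2 t ht c.o⟩
    d_comm := dc
    h_comm := fun g => cm _ _ g (by positivity) (hS c.o) fun σ _ => c.col_h_comm g σ
    i_comm := fun g => cm _ _ g (by positivity) iS fun σ h => c.col_i_comm g h }⟩

end Ctx

/-- The chain data exist. -/
theorem stCD : St_CD := by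
  intro Γ X _ _ _ _ _ hX o hp ⟨D, hD⟩
  classical
  obtain ⟨lo, -⟩ := exists_wellFoundedLT Γ
  have sub : ∀ (x : X) (r : ℝ), ∃ g : Γ, {v : Γ | dist x (v • o) ≤ r} ⊆
      (fun u => g * u) '' {u : Γ | dist o (u • o) ≤ D + r} := fun x r => by
    obtain ⟨g, hg⟩ := hD x
    refine ⟨g, fun v hv => ⟨g⁻¹ * v, ?_, mul_inv_cancel_left g v⟩⟩
    change dist o ((g⁻¹ * v) • o) ≤ D + r
    rw [← dist_smul g, smul_smul, mul_inv_cancel_left]
    exact (dist_triangle_left _ _ x).trans (add_le_add hg hv)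
  have fin : ∀ (x : X) (r : ℝ), {v : Γ | dist x (v • o) ≤ r}.Finite := fun x r => by
    obtain ⟨g, hg⟩ := sub x r
    exact ((hp _).image _).subset hg
  refine (Ctx.mk o (D + 1) (hp (D + (D + 1 + 2))).toFinset.card hX (by simpa using hD) fin
    fun x => ?_).nonempty_cd
  obtain ⟨g, hg⟩ := sub x (D + 1 + 2)
  refine (card_le_card fun v hv => ?_).trans (card_image_le (f := fun u => g * u))
  obtain ⟨u, hu, rfl⟩ := hg ((Set.Finite.mem_toFinset _).1 hv)
  exact mem_image_of_mem _ ((Set.Finite.mem_toFinset _).2 hu)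

end Pool.Agent.Lib.BCC
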