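import Pool.Agent.Lib.SD.CATDefs

/-! The chain level data of a proper cocompact action on a CAT(0) space: interface. -/

noncomputable section

open Finset Filter

namespace Pool.Agent.Lib.BCC

section

variable {I : Type}

/-- Column finite real matrices. -/
def E (I : Type) : Type := Module.End ℝ (I →₀ ℝ)

instance : Ring (E I) := inferInstanceAs (Ring (Module.End ℝ (I →₀ ℝ)))

instance : Algebra ℝ (E I) := inferInstanceAs (Algebra ℝ (Module.End ℝ (I →₀ ℝ)))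

instance : FunLike (E I) (I →₀ ℝ) (I →₀ ℝ) :=
  inferInstanceAs (FunLike ((I →₀ ℝ) →ₗ[ℝ] (I →₀ ℝ)) _ _)

instance : LinearMapClass (E I) ℝ (I →₀ ℝ) (I →₀ ℝ) :=
  inferInstanceAs (LinearMapClass ((I →₀ ℝ) →ₗ[ℝ] (I →₀ ℝ)) ℝ _ _)

/-- The underlying linear map. -/
def E.lin (T : E I) : (I →₀ ℝ) →ₗ[ℝ] (I →₀ ℝ) := T

/-- The matrix with the given columns. -/
def ofCol (v : I → I →₀ ℝ) : E I := Finsupp.linearCombination ℝ v

/-- The column of `T` at `σ`. -/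
def col (T : E I) (σ : I) : I →₀ ℝ := T (Finsupp.single σ 1)

/-- Weighted `l¹` norm. -/
def nm (φ : I → ℝ) (ξ : I →₀ ℝ) : ℝ := ∑ τ ∈ ξ.support, |ξ τ| * φ τ

/-- The `l¹` norm. -/
def ms (ξ : I →₀ ℝ) : ℝ := ∑ τ ∈ ξ.support, |ξ τ|

/-- The diagonal matrix. -/
def dgl (φ : I → ℝ) : E I := ofCol fun σ => Finsupp.single σ (φ σ)

/-- `exp (t w) T exp (-t w)`. -/
def cj (w : I → ℝ) (t : ℝ) (T : E I) : E I :=
  dgl (fun σ => Real.exp (t * w σ)) * T * dgl fun σ => Real.exp (-(t * w σ))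

end

/-- The augmented oriented chain complex of the nerve of the balls of a fixed radius round the
orbit of `o`, with all the estimates that are used. -/
structure CD (Γ X : Type) [Group Γ] [MetricSpace X] [MulAction Γ X] (o : X) where
  /-- simplices, the empty one included -/
  Δ : Type
  [act : MulAction Γ Δ]
  nil : Δ
  deg : Δ → ℕ
  N : ℕ
  R : ℝ
  /-- nearest point to `o` of the intersection of the balls -/
  p : Δ → X
  /-- equivariant centre -/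
  b : Δ → X
  w : Δ → ℝ
  sg : Γ → Δ → ℝ
  π : Γ →* E Δ
  d : E Δ
  h : E Δ
  i : E Δ
  J : E Δ
  smul_nil : ∀ g : Γ, g • nil = nil
  deg_zero : ∀ σ, deg σ = 0 ↔ σ = nil
  deg_smul : ∀ (g : Γ) σ, deg (g • σ) = deg σ
  deg_le : ∀ σ, deg σ ≤ N
  R_pos : 0 < R
  p_nil : p nil = o
  w_eq : ∀ σ, w σ = dist o (p σ)
  w_fin : ∀ W : ℝ, {σ | w σ ≤ W}.Finite
  w_smul : ∀ (g : Γ) σ, |w (g • σ) - w σ| ≤ dist o (g • o)
  p_fib : ∀ x, ∃ T : Finset Δ, T.card ≤ N ∧ ∀ σ, p σ = x → σ ∈ T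
  p_smul : ∀ (g : Γ) σ, dist (p (g • σ)) (g • p σ) ≤ dist o (g • o)
  p_far : ∀ (g : Γ) σ, dist (p (g • σ)) (g • p σ) * w σ ≤ 8 * R * dist o (g • o)
  b_smul : ∀ (g : Γ) σ, σ ≠ nil → b (g • σ) = g • b σ
  b_near : ∀ σ, σ ≠ nil → dist (p σ) (b σ) ≤ 2 * R
  sg_sq : ∀ g σ, sg g σ = 1 ∨ sg g σ = -1
  sg_nil : ∀ g, sg g nil = 1
  π_col : ∀ g σ, col (π g) σ = Finsupp.single (g • σ) (sg g σ)
  d_sq : d * d = 0
  h_sq : h * h = 0
  i_sq : i * i = 0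
  ih : i * h + h * i = 1
  dJ : d * J + J * d = 1
  π_d : ∀ g, π g * d = d * π g
  d_sup : ∀ σ τ, col d σ τ ≠ 0 → deg τ + 1 = deg σ ∧ w τ ≤ w σ
  h_sup : ∀ σ τ, col h σ τ ≠ 0 → deg τ = deg σ + 1 ∧ p τ = p σ
  i_sup : ∀ σ τ, col i σ τ ≠ 0 → deg τ + 1 = deg σ ∧ p τ = p σ
  J_sup : ∀ σ τ, col J σ τ ≠ 0 → deg τ = deg σ + 1
  d_ms : ∀ σ, ms (col d σ) ≤ N
  h_ms : ∀ σ, ms (col h σ) ≤ N
  i_ms : ∀ σ, ms (col i σ) ≤ N
  J_ms : ∀ t : ℝ, 0 < t → ∃ A : ℝ, ∀ σ, ms (col (cj w t J) σ) ≤ A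
  K_ms : ∀ δ : ℝ, 0 < δ → ∃ t₀ : ℝ, 0 < t₀ ∧ ∀ t, t₀ ≤ t → ∀ σ,
    ms (col (cj w t (1 - d * h - h * d)) σ) ≤ δ
  d_comm : ∀ t : ℝ, 0 < t → ∀ (u : ℝ) (g : Γ), Tendsto
    (fun σ => ms (col (cj w t d * cj w u (π g) - cj w u (π g) * cj w t d) σ)) cofinite (nhds 0)
  h_comm : ∀ g : Γ, Tendsto (fun σ => ms (col (h * π g - π g * h) σ)) cofinite (nhds 0)
  i_comm : ∀ g : Γ, Tendsto (fun σ => ms (col (i * π g - π g * i) σ)) cofinite (nhds 0)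

/-- The chain data exist. -/
def St_CD : Prop := ∀ (Γ X : Type) [Group Γ] [MetricSpace X] [CompleteSpace X] [MulAction Γ X]
  [IsIsometricSMul Γ X], SD.HasCNMidpoints X → ∀ o : X,
    (∀ r : ℝ, {g : Γ | dist o (g • o) ≤ r}.Finite) → (∃ D : ℝ, ∀ x, ∃ g : Γ, dist x (g • o) ≤ D) →
      Nonempty (CD Γ X o)

section API

variable {I : Type}

lemma ext_col {S T : E I} (h : ∀ σ, col S σ = col T σ) : S = T :=
  Finsupp.lhom_ext' fun σ => LinearMap.ext_ring (h σ)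

@[simp] lemma lin_apply (T : E I) (ξ : I →₀ ℝ) : T.lin ξ = T ξ := rfl
@[simp] lemma one_apply (ξ : I →₀ ℝ) : (1 : E I) ξ = ξ := rfl
@[simp] lemma zero_apply (ξ : I →₀ ℝ) : (0 : E I) ξ = 0 := rfl
lemma add_apply (S T : E I) (ξ : I →₀ ℝ) : (S + T) ξ = S ξ + T ξ := rfl
lemma sub_apply (S T : E I) (ξ : I →₀ ℝ) : (S - T) ξ = S ξ - T ξ := rfl
lemma mul_apply (S T : E I) (ξ : I →₀ ℝ) : (S * T) ξ = S (T ξ) := rfl
lemma smul_apply (c : ℝ) (T : E I) (ξ : I →₀ ℝ) : (c • T) ξ = c • T ξ := rfl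
@[simp] lemma col_one (σ : I) : col (1 : E I) σ = Finsupp.single σ 1 := rfl
@[simp] lemma col_zero (σ : I) : col (0 : E I) σ = 0 := rfl
@[simp] lemma col_add (S T : E I) (σ : I) : col (S + T) σ = col S σ + col T σ := rfl
@[simp] lemma col_sub (S T : E I) (σ : I) : col (S - T) σ = col S σ - col T σ := rfl
@[simp] lemma col_smul (c : ℝ) (T : E I) (σ : I) : col (c • T) σ = c • col T σ := rfl
lemma col_mul (S T : E I) (σ : I) : col (S * T) σ = S (col T σ) := rfl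

lemma apply_single (T : E I) (σ : I) (c : ℝ) : T (Finsupp.single σ c) = c • col T σ := by
  rw [col, ← map_smul, Finsupp.smul_single, smul_eq_mul, mul_one]

lemma apply_eq_sum (T : E I) (ξ : I →₀ ℝ) : T ξ = ∑ σ ∈ ξ.support, ξ σ • col T σ := by
  conv_lhs => rw [← ξ.sum_single, Finsupp.sum, map_sum]
  exact sum_congr rfl fun σ _ => apply_single T σ _

@[simp] lemma col_ofCol (v : I → I →₀ ℝ) (σ : I) : col (ofCol v) σ = v σ :=
  (Finsupp.linearCombination_single ℝ 1 σ).trans (one_smul ℝ _)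

lemma col_dgl (φ : I → ℝ) (σ : I) : col (dgl φ) σ = Finsupp.single σ (φ σ) := col_ofCol _ σ

lemma dgl_apply (φ : I → ℝ) (ξ : I →₀ ℝ) (τ : I) : dgl φ ξ τ = φ τ * ξ τ := by
  classical
  rw [apply_eq_sum, Finsupp.finsetSum_apply, sum_eq_single τ]
  · simp [col_dgl, mul_comm]
  · intro σ _ h
    simp [col_dgl, h]
  · intro h
    simp [Finsupp.notMem_support_iff.1 h]

lemma dgl_mul (φ ψ : I → ℝ) : dgl φ * dgl ψ = dgl fun σ => φ σ * ψ σ :=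
  ext_col fun σ => by rw [col_mul, col_dgl, apply_single, col_dgl, col_dgl]; simp [mul_comm]

lemma dgl_one : dgl (fun _ : I => (1 : ℝ)) = 1 := ext_col fun σ => col_dgl _ σ

lemma col_cj (w : I → ℝ) (t : ℝ) (T : E I) (σ τ : I) :
    col (cj w t T) σ τ = Real.exp (t * (w τ - w σ)) * col T σ τ := by
  rw [cj, col_mul, col_dgl, apply_single, col_mul, Finsupp.smul_apply, dgl_apply, smul_eq_mul,
    ← mul_assoc, ← Real.exp_add]
  congr 2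
  ring

lemma dgl_exp_neg (w : I → ℝ) (t : ℝ) :
    (dgl fun σ => Real.exp (-(t * w σ))) * dgl (fun σ => Real.exp (t * w σ)) = 1 := by
  rw [dgl_mul, ← dgl_one]
  congr 1
  ext σ
  rw [← Real.exp_add, neg_add_cancel, Real.exp_zero]

lemma cj_mul (w : I → ℝ) (t : ℝ) (S T : E I) : cj w t (S * T) = cj w t S * cj w t T := by
  have h : cj w t S * cj w t T = dgl (fun σ => Real.exp (t * w σ)) * S *
      ((dgl fun σ => Real.exp (-(t * w σ))) * dgl (fun σ => Real.exp (t * w σ))) * T *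
      dgl fun σ => Real.exp (-(t * w σ)) := by simp only [cj, mul_assoc]
  rw [h, dgl_exp_neg, mul_one, cj, mul_assoc _ S T]

lemma cj_one (w : I → ℝ) (t : ℝ) : cj w t (1 : E I) = 1 := by
  rw [cj, mul_one, dgl_mul, ← dgl_one]
  congr 1
  ext σ
  rw [← Real.exp_add, add_neg_cancel, Real.exp_zero]

lemma cj_add (w : I → ℝ) (t : ℝ) (S T : E I) : cj w t (S + T) = cj w t S + cj w t T := by
  simp only [cj, mul_add, add_mul]

lemma cj_sub (w : I → ℝ) (t : ℝ) (S T : E I) : cj w t (S - T) = cj w t S - cj w t T := by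
  simp only [cj, mul_sub, sub_mul]

lemma cj_zero (w : I → ℝ) (t : ℝ) : cj w t (0 : E I) = 0 := by simp [cj]

lemma cj_at_zero (w : I → ℝ) (T : E I) : cj w 0 T = T := by simp [cj, dgl_one]

lemma cj_of_eq {w : I → ℝ} {T : E I} (h : ∀ σ τ, col T σ τ ≠ 0 → w τ = w σ) (t : ℝ) :
    cj w t T = T := ext_col fun σ => Finsupp.ext fun τ => by
  rw [col_cj]
  by_cases h0 : col T σ τ = 0
  · rw [h0, mul_zero]
  · rw [h σ τ h0, sub_self, mul_zero, Real.exp_zero, one_mul]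

lemma nm_eq {φ : I → ℝ} {ξ : I →₀ ℝ} {F : Finset I} (h : ξ.support ⊆ F) :
    nm φ ξ = ∑ τ ∈ F, |ξ τ| * φ τ :=
  sum_subset h fun τ _ h2 => by rw [Finsupp.notMem_support_iff.1 h2, abs_zero, zero_mul]

lemma ms_eq_nm (ξ : I →₀ ℝ) : ms ξ = nm (fun _ => 1) ξ := by simp [ms, nm]

lemma sum_le_nm {φ : I → ℝ} (hφ : ∀ τ, 0 ≤ φ τ) (ξ : I →₀ ℝ) (F : Finset I) :
    ∑ τ ∈ F, |ξ τ| * φ τ ≤ nm φ ξ := by
  classical
  rw [nm_eq (F := F ∪ ξ.support) subset_union_right]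
  exact sum_le_sum_of_subset_of_nonneg subset_union_left fun τ _ _ =>
    mul_nonneg (abs_nonneg _) (hφ τ)

lemma nm_nonneg {φ : I → ℝ} (hφ : ∀ τ, 0 ≤ φ τ) (ξ : I →₀ ℝ) : 0 ≤ nm φ ξ :=
  sum_nonneg fun τ _ => mul_nonneg (abs_nonneg _) (hφ τ)

@[simp] lemma nm_zero (φ : I → ℝ) : nm φ 0 = 0 := by simp [nm]

lemma nm_single (φ : I → ℝ) (σ : I) (c : ℝ) : nm φ (Finsupp.single σ c) = |c| * φ σ := by
  rw [nm_eq Finsupp.support_single_subset, sum_singleton, Finsupp.single_eq_same]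

lemma nm_smul (φ : I → ℝ) (c : ℝ) (ξ : I →₀ ℝ) : nm φ (c • ξ) = |c| * nm φ ξ := by
  rw [nm_eq Finsupp.support_smul, nm, mul_sum]
  exact sum_congr rfl fun τ _ => by rw [Finsupp.smul_apply, smul_eq_mul, abs_mul, mul_assoc]

lemma nm_neg (φ : I → ℝ) (ξ : I →₀ ℝ) : nm φ (-ξ) = nm φ ξ := by simp [nm]

lemma nm_add_le {φ : I → ℝ} (hφ : ∀ τ, 0 ≤ φ τ) (ξ η : I →₀ ℝ) :
    nm φ (ξ + η) ≤ nm φ ξ + nm φ η := by
  refine le_trans ?_ (add_le_add (sum_le_nm hφ ξ (ξ + η).support) (sum_le_nm hφ η (ξ + η).support))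
  rw [nm, ← sum_add_distrib]
  refine sum_le_sum fun τ _ => ?_
  rw [← add_mul, Finsupp.add_apply]
  exact mul_le_mul_of_nonneg_right (abs_add_le _ _) (hφ τ)

lemma nm_sub_le {φ : I → ℝ} (hφ : ∀ τ, 0 ≤ φ τ) (ξ η : I →₀ ℝ) :
    nm φ (ξ - η) ≤ nm φ ξ + nm φ η := by
  rw [sub_eq_add_neg, ← nm_neg φ η]
  exact nm_add_le hφ _ _

lemma nm_sum_le {φ : I → ℝ} (hφ : ∀ τ, 0 ≤ φ τ) {κ : Type} (F : Finset κ) (ξ : κ → I →₀ ℝ) :
    nm φ (∑ k ∈ F, ξ k) ≤ ∑ k ∈ F, nm φ (ξ k) :=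
  le_sum_of_subadditive (nm φ) (nm_zero φ).le (nm_add_le hφ) F ξ

lemma nm_apply_le {φ ψ : I → ℝ} (hφ : ∀ τ, 0 ≤ φ τ) (T : E I) (ξ : I →₀ ℝ) {A : ℝ}
    (h : ∀ σ ∈ ξ.support, nm φ (col T σ) ≤ A * ψ σ) : nm φ (T ξ) ≤ A * nm ψ ξ := by
  rw [apply_eq_sum, nm, ← nm, nm.eq_1 ψ, mul_sum]
  refine (nm_sum_le hφ _ _).trans (sum_le_sum fun σ hσ => ?_)
  rw [nm_smul, mul_left_comm]
  exact mul_le_mul_of_nonneg_left (h σ hσ) (abs_nonneg _)

lemma nm_le_of {φ : I → ℝ} {ξ : I →₀ ℝ} {c : ℝ} (h : ∀ τ ∈ ξ.support, φ τ ≤ c) :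
    nm φ ξ ≤ c * ms ξ := by
  rw [nm, ms, mul_sum]
  exact sum_le_sum fun τ hτ => by
    rw [mul_comm c]
    exact mul_le_mul_of_nonneg_left (h τ hτ) (abs_nonneg _)

lemma ms_nonneg (ξ : I →₀ ℝ) : 0 ≤ ms ξ := sum_nonneg fun _ _ => abs_nonneg _

lemma abs_le_ms (ξ : I →₀ ℝ) (τ : I) : |ξ τ| ≤ ms ξ := by
  simpa [ms_eq_nm] using sum_le_nm (φ := fun _ => 1) (fun _ => zero_le_one) ξ {τ}

lemma ms_col_cj (w : I → ℝ) (t : ℝ) (T : E I) (σ : I) : ms (col (cj w t T) σ) =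
    nm (fun τ => Real.exp (t * (w τ - w σ))) (col T σ) := by
  rw [ms_eq_nm, nm_eq (F := (col T σ).support), nm]
  · exact sum_congr rfl fun τ _ => by
      rw [col_cj, abs_mul, abs_of_pos (Real.exp_pos _), mul_one, mul_comm]
  · intro τ hτ
    rw [Finsupp.mem_support_iff] at hτ ⊢
    rw [col_cj] at hτ
    exact right_ne_zero_of_mul hτ

end API

end Pool.Agent.Lib.BCC
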