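import Pool.Agent.Lib.BCC.Defs

/-! Filling cycles, acyclic carriers, and the contraction of subexponential growth. -/

noncomputable section

open Finset

namespace Pool.Agent.Lib.BCC

variable {I : Type}

/-- All elements of the support satisfy `Q`. -/
def Sp (Q : I → Prop) (ξ : I →₀ ℝ) : Prop := ∀ τ, ξ τ ≠ 0 → Q τ

lemma Sp.mono {Q Q' : I → Prop} {ξ : I →₀ ℝ} (h : Sp Q ξ) (hQ : ∀ τ, Q τ → Q' τ) : Sp Q' ξ :=
  fun τ hτ => hQ τ (h τ hτ)

lemma sp_zero (Q : I → Prop) : Sp Q 0 := fun _ h => absurd rfl h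

lemma Sp.add {Q : I → Prop} {ξ η : I →₀ ℝ} (h : Sp Q ξ) (h' : Sp Q η) : Sp Q (ξ + η) := by
  intro τ hτ
  by_cases h1 : ξ τ = 0
  · exact h' τ fun h2 => hτ (by simp [h1, h2])
  · exact h τ h1

lemma Sp.smul {Q : I → Prop} {ξ : I →₀ ℝ} (h : Sp Q ξ) (c : ℝ) : Sp Q (c • ξ) :=
  fun τ hτ => h τ (right_ne_zero_of_mul hτ)

lemma Sp.sub {Q : I → Prop} {ξ η : I →₀ ℝ} (h : Sp Q ξ) (h' : Sp Q η) : Sp Q (ξ - η) := by
  rw [sub_eq_add_neg, ← neg_one_smul ℝ η]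
  exact h.add (h'.smul _)

lemma sp_sum {Q : I → Prop} {κ : Type} {F : Finset κ} {ξ : κ → I →₀ ℝ} (h : ∀ k ∈ F, Sp Q (ξ k)) :
    Sp Q (∑ k ∈ F, ξ k) :=
  sum_induction ξ (Sp Q) (fun _ _ => Sp.add) (sp_zero Q) h

lemma sp_single {Q : I → Prop} {σ : I} (h : Q σ) (c : ℝ) : Sp Q (Finsupp.single σ c) :=
  fun _ hτ => (Finsupp.single_apply_ne_zero.1 hτ).1 ▸ h

lemma sp_apply {Q : I → Prop} (T : E I) {ξ : I →₀ ℝ} (h : ∀ σ, ξ σ ≠ 0 → Sp Q (col T σ)) :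
    Sp Q (T ξ) := by
  rw [apply_eq_sum]
  exact sp_sum fun σ hσ => (h σ (Finsupp.mem_support_iff.1 hσ)).smul _

lemma apply_congr {S T : E I} {ξ : I →₀ ℝ} (h : ∀ σ, ξ σ ≠ 0 → col S σ = col T σ) :
    S ξ = T ξ := by
  rw [apply_eq_sum, apply_eq_sum]
  exact sum_congr rfl fun σ hσ => by rw [h σ (Finsupp.mem_support_iff.1 hσ)]

lemma ms_add_le (ξ η : I →₀ ℝ) : ms (ξ + η) ≤ ms ξ + ms η := by
  simp only [ms_eq_nm]
  exact nm_add_le (fun _ => zero_le_one) _ _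

lemma ms_sub_le (ξ η : I →₀ ℝ) : ms (ξ - η) ≤ ms ξ + ms η := by
  simp only [ms_eq_nm]
  exact nm_sub_le (fun _ => zero_le_one) _ _

lemma ms_smul (c : ℝ) (ξ : I →₀ ℝ) : ms (c • ξ) = |c| * ms ξ := by
  simp only [ms_eq_nm, nm_smul]

@[simp] lemma ms_zero : ms (0 : I →₀ ℝ) = 0 := by simp [ms]

lemma ms_single (σ : I) (c : ℝ) : ms (Finsupp.single σ c) = |c| := by
  rw [ms_eq_nm, nm_single, mul_one]

lemma ms_apply_le (T : E I) (ξ : I →₀ ℝ) {A : ℝ} (h : ∀ σ, ξ σ ≠ 0 → ms (col T σ) ≤ A) :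
    ms (T ξ) ≤ A * ms ξ := by
  simp only [ms_eq_nm] at h ⊢
  exact nm_apply_le (fun _ => zero_le_one) T ξ fun σ hσ => by
    rw [mul_one]
    exact h σ (Finsupp.mem_support_iff.1 hσ)

/-- Cycles supported where `u ≤ A` bound chains supported there, with controlled mass. -/
def Fill (d : E I) (deg : I → ℕ) (M : ℝ → ℝ) (u : I → ℝ) : Prop :=
  ∀ (A : ℝ) (k : ℕ) (ξ : I →₀ ℝ), Sp (fun τ => u τ ≤ A ∧ deg τ = k) ξ → d ξ = 0 →
    ∃ η, Sp (fun τ => u τ ≤ A ∧ deg τ = k + 1) η ∧ d η = ξ ∧ ms η ≤ M A * ms ξ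

lemma surj_on {M : Type} [AddCommGroup M] [Module ℝ M] (S : Submodule ℝ M)
    (hS : FiniteDimensional ℝ S) (T : M →ₗ[ℝ] M) (h : ∀ x ∈ S, T x ∈ S)
    (inj : ∀ x, T x = 0 → x = 0) {y : M} (hy : y ∈ S) : ∃ x ∈ S, T x = y := by
  have a6 : Function.Injective (T.restrict h) :=
    (injective_iff_map_eq_zero _).2 fun ζ h0 => Subtype.ext (inj ζ.1 (congrArg Subtype.val h0))
  obtain ⟨⟨ζ, z1⟩, z2⟩ := LinearMap.injective_iff_surjective.1 a6 ⟨y, hy⟩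
  exact ⟨ζ, z1, congrArg Subtype.val z2⟩

theorem fill_of {d h : E I} {deg : I → ℕ} {w : I → ℝ} {t : ℝ} (ht : 0 ≤ t) (hd : d * d = 0)
    (w0 : ∀ σ, 0 ≤ w σ) (fin : ∀ W : ℝ, {σ | w σ ≤ W}.Finite)
    (hs : ∀ σ, Sp (fun τ => w τ ≤ w σ ∧ deg τ = deg σ + 1) (col h σ))
    (hm : ∀ σ, ms (col h σ) ≤ 1)
    (ds : ∀ σ, Sp (fun τ => w τ ≤ w σ ∧ deg τ + 1 = deg σ) (col d σ))
    (hK : ∀ σ, ms (col (cj w t (1 - d * h - h * d)) σ) ≤ 1 / 2) :
    Fill d deg (fun A => 2 * Real.exp (t * A)) w := by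
  intro A k ξ h1 h2
  set φ : I → ℝ := fun τ => Real.exp (t * w τ) with hφ
  have φ0 : ∀ τ, 0 ≤ φ τ := fun τ => (Real.exp_pos _).le
  have a1 : ∀ ζ, ms ζ ≤ nm φ ζ := fun ζ => sum_le_sum fun τ _ =>
    le_mul_of_one_le_right (abs_nonneg _) (Real.one_le_exp (mul_nonneg ht (w0 τ)))
  have a2 : ∀ ζ, nm φ ζ ≤ 2 * nm φ ((d * h + h * d) ζ) := fun ζ => by
    have b1 : nm φ ((1 - d * h - h * d) ζ) ≤ 1 / 2 * nm φ ζ := nm_apply_le φ0 _ _ fun σ _ => by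
      have b2 := mul_le_mul_of_nonneg_right (hK σ) (φ0 σ)
      rw [ms_col_cj, nm, sum_mul] at b2
      refine le_trans (le_of_eq (sum_congr rfl fun τ _ => ?_)) b2
      rw [mul_assoc, ← Real.exp_add]
      simp only [hφ]
      congr 2
      ring
    have b3 := nm_add_le φ0 ((d * h + h * d) ζ) ((1 - d * h - h * d) ζ)
    rw [← add_apply, sub_sub, add_sub_cancel, one_apply, ← sub_sub] at b3
    linarith
  have a3 : ∀ ζ, (d * h + h * d) ζ = 0 → ζ = 0 := fun ζ h0 => Finsupp.ext fun τ => by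
    have b1 := a2 ζ
    rw [h0, nm_zero, mul_zero] at b1
    exact abs_nonpos_iff.1 ((abs_le_ms ζ τ).trans ((a1 ζ).trans b1))
  set S := Finsupp.supported ℝ ℝ {τ | w τ ≤ A ∧ deg τ = k} with hS
  have a4 : ∀ ζ, ζ ∈ S ↔ Sp (fun τ => w τ ≤ A ∧ deg τ = k) ζ := fun ζ =>
    ⟨fun h τ hτ => h (Finsupp.mem_support_iff.2 hτ),
      fun h τ hτ => h τ (Finsupp.mem_support_iff.1 hτ)⟩
  have a5 : ∀ ζ ∈ S, (d * h + h * d).lin ζ ∈ S := fun ζ hζ => by
    rw [a4] at hζ ⊢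
    refine (sp_apply d fun σ h3 => ?_).add (sp_apply h fun σ h3 => ?_)
    · have h4 := sp_apply (Q := fun τ => w τ ≤ A ∧ deg τ = k + 1) h (fun κ h4 => (hs κ).mono
        fun τ h5 => ⟨h5.1.trans (hζ κ h4).1, by rw [h5.2, (hζ κ h4).2]⟩) σ h3
      exact (ds σ).mono fun τ h5 => ⟨h5.1.trans h4.1, by omega⟩
    · have h4 := sp_apply (Q := fun τ => w τ ≤ A ∧ deg τ + 1 = k) d (fun κ h4 => (ds κ).mono
        fun τ h5 => ⟨h5.1.trans (hζ κ h4).1, by rw [h5.2, (hζ κ h4).2]⟩) σ h3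
      exact (hs σ).mono fun τ h5 => ⟨h5.1.trans h4.1, by omega⟩
  have : Finite {τ | w τ ≤ A ∧ deg τ = k} := (fin A).subset fun τ h => h.1
  obtain ⟨ζ, z1, z3⟩ := surj_on (M := I →₀ ℝ) S
    (Finsupp.supportedEquivFinsupp _).symm.finiteDimensional (d * h + h * d).lin a5 a3
    ((a4 ξ).2 h1)
  rw [lin_apply] at z3
  have z4 : d ζ = 0 := a3 _ (by
    have b1 : (d * h + h * d) * d = d * (d * h + h * d) := by
      rw [add_mul, mul_add, mul_assoc h, hd, ← mul_assoc d d, hd]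
      noncomm_ring
    rw [← mul_apply, b1, mul_apply, z3, h2])
  rw [a4] at z1
  refine ⟨h ζ, sp_apply h fun κ h4 => (hs κ).mono fun τ h5 =>
    ⟨h5.1.trans (z1 κ h4).1, by rw [h5.2, (z1 κ h4).2]⟩, ?_, ?_⟩
  · rw [← z3, add_apply, mul_apply, mul_apply, z4, map_zero, add_zero]
  · have b1 := ms_apply_le h ζ fun σ _ => hm σ
    have b2 := a2 ζ
    have b3 : nm φ ξ ≤ Real.exp (t * A) * ms ξ := nm_le_of fun τ hτ => Real.exp_le_exp.2
      (mul_le_mul_of_nonneg_left (h1 τ (Finsupp.mem_support_iff.1 hτ)).1 ht)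
    rw [z3] at b2
    linarith [a1 ζ]

/-- Acyclic carriers. -/
theorem ac {d : E I} (hd : d * d = 0) {deg : I → ℕ} {N : ℕ} (hN : ∀ σ, deg σ ≤ N)
    (ds : ∀ σ τ, col d σ τ ≠ 0 → deg τ + 1 = deg σ) (dm : ∀ σ, ms (col d σ) ≤ N) {M : ℝ → ℝ}
    (hM : ∀ A, 0 ≤ M A) (A₀ : ℝ) {c M₀ : ℝ} (hc : 0 ≤ c) (hM₀ : 0 ≤ M₀) :
    ∃ A₁ M₁ : ℝ, A₀ ≤ A₁ ∧ 0 ≤ M₁ ∧ ∀ (u : I → I → ℝ) (Z : I → Prop) (ψ : E I) (dg : I → ℕ)
      (ε : ℝ), |ε| = 1 → (∀ σ, Fill d deg M (u σ)) → d * ψ = ε • (ψ * d) →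
      (∀ σ, Z σ → col ψ σ = 0 ∧ Sp Z (col d σ)) →
      (∀ σ τ, ¬Z σ → col d σ τ ≠ 0 → ¬Z τ → dg τ + 1 = dg σ ∧ ∀ κ, u σ κ ≤ u τ κ + c) →
      (∀ σ, ¬Z σ → Sp (fun τ => u σ τ ≤ A₀ ∧ deg τ = dg σ) (col ψ σ)) →
      (∀ σ, ms (col ψ σ) ≤ M₀) → ∃ G : E I, d * G + ε • (G * d) = ψ ∧
        (∀ σ, Z σ → col G σ = 0) ∧
        (∀ σ, Sp (fun τ => u σ τ ≤ A₁ ∧ deg τ = dg σ + 1) (col G σ)) ∧ ∀ σ, ms (col G σ) ≤ M₁ := by
  classical
  obtain ⟨m, m0, m1⟩ : ∃ m : ℕ → ℝ, (∀ k, 0 ≤ m k) ∧ ∀ k,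
      m (k + 1) = M (A₀ + c * k) * (M₀ + m k * N) := by
    refine ⟨fun k => Nat.rec 0 (fun k x => M (A₀ + c * k) * (M₀ + x * N)) k, fun k => ?_,
      fun k => rfl⟩
    induction k with
    | zero => exact le_rfl
    | succ k ih => exact mul_nonneg (hM _) (add_nonneg hM₀ (mul_nonneg ih N.cast_nonneg))
  refine ⟨A₀ + c * N, ∑ k ∈ range (N + 2), m k, le_add_of_nonneg_right (by positivity),
    sum_nonneg fun k _ => m0 k, fun u Z ψ dg ε hε hF hψ hZ hf h1 h2 => ?_⟩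
  have key : ∀ k, ∃ v : I → I →₀ ℝ, ∀ σ, deg σ < k →
      d (v σ) + ε • ofCol v (col d σ) = col ψ σ ∧ (Z σ → v σ = 0) ∧
      Sp (fun τ => u σ τ ≤ A₀ + c * deg σ ∧ deg τ = dg σ + 1) (v σ) ∧
      ms (v σ) ≤ m (deg σ + 1) := by
    intro k
    induction k with
    | zero => exact ⟨0, fun σ h => absurd h (Nat.not_lt_zero _)⟩
    | succ k ih =>
      obtain ⟨v, hv⟩ := ih
      have st : ∀ σ, ∃ η, deg σ = k → d η + ε • ofCol v (col d σ) = col ψ σ ∧ (Z σ → η = 0) ∧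
          Sp (fun τ => u σ τ ≤ A₀ + c * deg σ ∧ deg τ = dg σ + 1) η ∧
          ms η ≤ m (deg σ + 1) := by
        intro σ
        by_cases hk : deg σ = k
        swap
        · exact ⟨0, fun h => absurd h hk⟩
        have lt : ∀ τ, col d σ τ ≠ 0 → deg τ < k := fun τ h => by have := ds σ τ h; omega
        by_cases hz : Z σ
        · refine ⟨0, fun _ => ⟨?_, fun _ => rfl, sp_zero _, by rw [ms_zero]; exact m0 _⟩⟩
          rw [apply_congr (S := ofCol v) (T := 0) fun τ h => by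
            rw [col_ofCol, (hv τ (lt τ h)).2.1 ((hZ σ hz).2 τ h), col_zero], (hZ σ hz).1]
          simp
        have e1 : (d * ofCol v + ε • (ofCol v * d)) (col d σ) = ψ (col d σ) :=
          apply_congr fun τ h => by
            rw [col_add, col_smul, col_mul, col_mul, col_ofCol]
            exact (hv τ (lt τ h)).1
        rw [add_apply, smul_apply, mul_apply, mul_apply, ← col_mul d d, hd, col_zero, map_zero,
          smul_zero, add_zero] at e1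
        obtain ⟨η, e2, e3, e4⟩ := hF σ (A₀ + c * deg σ) (dg σ)
          (col ψ σ - ε • ofCol v (col d σ))
          (((h1 σ hz).mono fun τ h => ⟨h.1.trans (le_add_of_nonneg_right (by positivity)),
            h.2⟩).sub ((sp_apply _ fun τ h => by
              rw [col_ofCol]
              by_cases hτ : Z τ
              · rw [(hv τ (lt τ h)).2.1 hτ]
                exact sp_zero _
              · refine (hv τ (lt τ h)).2.2.1.mono fun κ h3 =>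
                  ⟨?_, h3.2.trans (hf σ τ hz h hτ).1⟩
                rw [← ds σ τ h, Nat.cast_succ]
                linarith [(hf σ τ hz h hτ).2 κ, h3.1]).smul ε))
          (by rw [map_sub, map_smul, e1, ← col_mul, hψ, col_smul, col_mul, sub_self])
        refine ⟨η, fun _ => ⟨by rw [e3, sub_add_cancel], fun h => absurd h hz, e2, e4.trans ?_⟩⟩
        rw [m1]
        refine mul_le_mul_of_nonneg_left ((ms_sub_le _ _).trans (add_le_add (h2 σ) ?_)) (hM _)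
        rw [ms_smul, hε, one_mul]
        refine (ms_apply_le _ _ (A := m (deg σ)) fun τ h => ?_).trans
          (mul_le_mul_of_nonneg_left (dm σ) (m0 _))
        rw [col_ofCol, ← ds σ τ h]
        exact (hv τ (lt τ h)).2.2.2
      choose η hη using st
      refine ⟨fun σ => if deg σ = k then η σ else v σ, fun σ hσ => ?_⟩
      rw [apply_congr (S := ofCol fun σ => if deg σ = k then η σ else v σ) (T := ofCol v)
        fun τ h => by rw [col_ofCol, col_ofCol, if_neg (by have := ds σ τ h; omega)]]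
      by_cases hk : deg σ = k
      · simp only [if_pos hk]
        exact hη σ hk
      · simp only [if_neg hk]
        exact hv σ (by omega)
  obtain ⟨v, hv⟩ := key (N + 1)
  replace hv := fun σ => hv σ (Nat.lt_succ_of_le (hN σ))
  refine ⟨ofCol v, ext_col fun σ => ?_, fun σ h => ?_, fun σ => ?_, fun σ => ?_⟩
  · rw [col_add, col_smul, col_mul, col_mul, col_ofCol]
    exact (hv σ).1
  · rw [col_ofCol, (hv σ).2.1 h]
  · rw [col_ofCol]
    refine (hv σ).2.2.1.mono fun τ h => ⟨h.1.trans ?_, h.2⟩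
    have h3 : (deg σ : ℝ) ≤ N := Nat.cast_le.2 (hN σ)
    gcongr
  · rw [col_ofCol]
    exact (hv σ).2.2.2.trans (single_le_sum (fun k _ => m0 k)
      (mem_range.2 (by have := hN σ; omega)))

lemma geom_le {t x : ℝ} (ht : 0 < t) (hx : 0 ≤ x) :
    ∑ n ∈ range ⌈x⌉₊, Real.exp (t * (n - x)) ≤ (1 - Real.exp (-t))⁻¹ := by
  have h1 : Real.exp (-t) < 1 := Real.exp_lt_one_iff.2 (by linarith)
  rw [← tsum_geometric_of_lt_one (Real.exp_pos _).le h1, ← sum_range_reflect]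
  refine le_trans (sum_le_sum fun j hj => ?_) ((summable_geometric_of_lt_one (Real.exp_pos _).le
    h1).sum_le_tsum (range ⌈x⌉₊) fun j _ => by positivity)
  rw [← Real.exp_nat_mul, Real.exp_le_exp]
  have h2 : ((⌈x⌉₊ - 1 - j : ℕ) : ℝ) + 1 + j = ⌈x⌉₊ := by
    have := mem_range.1 hj
    exact_mod_cast (by omega : ⌈x⌉₊ - 1 - j + 1 + j = ⌈x⌉₊)
  have h3 := Nat.ceil_lt_add_one hx
  nlinarith

/-- A contraction that is bounded for every exponential weight. -/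
theorem exists_J {X : Type} [PseudoMetricSpace X] {d : E I} (hd : d * d = 0) {deg : I → ℕ} {N : ℕ}
    (hN : ∀ σ, deg σ ≤ N) (ww : X → I → ℝ) (o : X) (w0 : ∀ σ, 0 ≤ ww o σ)
    (ds : ∀ σ τ, col d σ τ ≠ 0 → deg τ + 1 = deg σ ∧ ww o τ ≤ ww o σ)
    (dm : ∀ σ, ms (col d σ) ≤ N) {M : ℝ → ℝ} (hM : ∀ A, 0 ≤ M A)
    (hF : ∀ x, Fill d deg M (ww x)) (lip : ∀ x y τ, ww x τ ≤ ww y τ + dist x y) (z : ℕ → I → X)
    {c : ℝ} (hc : 0 ≤ c) (z0 : ∀ σ, z 0 σ = o) (z1 : ∀ n σ, dist (z n σ) (z (n + 1) σ) ≤ 1)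
    (z2 : ∀ n σ τ, col d σ τ ≠ 0 → deg τ ≠ 0 → dist (z n σ) (z n τ) ≤ c)
    (z3 : ∀ (n : ℕ) σ, ww o σ ≤ n → ww (z n σ) σ ≤ 0) (z4 : ∀ n σ, dist o (z n σ) ≤ n)
    (z5 : ∀ x τ, deg τ = 0 → ww x τ ≤ 0) :
    ∃ J : E I, d * J + J * d = 1 ∧ (∀ σ τ, col J σ τ ≠ 0 → deg τ = deg σ + 1) ∧
      ∀ t : ℝ, 0 < t → ∃ A : ℝ, ∀ σ, ms (col (cj (ww o) t J) σ) ≤ A := by
  classical
  have ds1 := fun σ τ h => (ds σ τ h).1
  have nz : ∀ (n : ℕ) τ, ¬ww o τ ≤ n → deg τ ≠ 0 := fun n τ h h1 =>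
    h ((z5 o τ h1).trans n.cast_nonneg)
  have fc : ∀ (n : ℕ) σ τ, col d σ τ ≠ 0 → ¬ww o τ ≤ n → ∀ κ,
      ww (z n σ) κ ≤ ww (z n τ) κ + c := fun n σ τ h h1 κ =>
    (lip _ (z n τ) κ).trans (by linarith [z2 n σ τ h (nz n τ h1)])
  have zc : ∀ (n : ℕ) σ, ww o σ ≤ n → Sp (fun τ => ww o τ ≤ n) (col d σ) := fun n σ h τ h1 =>
    (ds σ τ h1).2.trans h
  obtain ⟨A₁, M₁, a1, m1, H1⟩ := ac hd hN ds1 dm hM c hc N.cast_nonneg
  have F1 : ∀ n : ℕ, ∃ f : E I, d * f = f * d ∧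
      (∀ σ, ww o σ ≤ n → col f σ = Finsupp.single σ 1) ∧
      (∀ σ, Sp (fun τ => ww (z n σ) τ ≤ A₁ ∧ deg τ = deg σ) (col f σ)) ∧
      ∀ σ, ms (col f σ) ≤ M₁ + 1 := by
    intro n
    set χ : E I := dgl fun σ => if ww o σ ≤ n then 1 else 0 with hχ
    have c1 : ∀ σ, ww o σ ≤ n → col χ σ = Finsupp.single σ 1 := fun σ h => by
      rw [hχ, col_dgl, if_pos h]
    have c2 : ∀ σ, ¬ww o σ ≤ n → col χ σ = 0 := fun σ h => by
      rw [hχ, col_dgl, if_neg h, Finsupp.single_zero]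
    have c3 : ∀ σ, ww o σ ≤ n → col (χ * d - d * χ) σ = 0 := fun σ h => by
      rw [col_sub, col_mul, col_mul, c1 σ h,
        apply_congr (S := χ) (T := 1) fun τ h1 => c1 τ (zc n σ h τ h1)]
      exact sub_self _
    have c4 : ∀ σ, ¬ww o σ ≤ n → col (χ * d - d * χ) σ = χ (col d σ) := fun σ h => by
      rw [col_sub, col_mul, col_mul, c2 σ h, map_zero, sub_zero]
    obtain ⟨L, l1, l2, l3, l4⟩ := H1 (fun σ => ww (z n σ)) (fun σ => ww o σ ≤ n) (χ * d - d * χ)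
      (fun σ => deg σ - 1) (-1) (by simp) (fun σ => hF _)
      (by rw [mul_sub, sub_mul, ← mul_assoc d d, mul_assoc χ, hd, neg_one_smul]; noncomm_ring)
      (fun σ h => ⟨c3 σ h, zc n σ h⟩)
      (fun σ τ _ h h1 => ⟨by have := ds1 σ τ h; have := nz n τ h1; omega, fc n σ τ h h1⟩)
      (fun σ h => by
        rw [c4 σ h]
        refine sp_apply _ fun τ h1 => ?_
        by_cases h2 : ww o τ ≤ n
        · rw [c1 τ h2]
          refine sp_single ⟨?_, by have := ds1 σ τ h1; omega⟩ _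
          by_cases h3 : deg τ = 0
          · exact (z5 _ τ h3).trans hc
          · linarith [lip (z n σ) (z n τ) τ, z2 n σ τ h1 h3, z3 n τ h2]
        · rw [c2 τ h2]
          exact sp_zero _)
      (fun σ => by
        by_cases h : ww o σ ≤ n
        · rw [c3 σ h, ms_zero]
          exact N.cast_nonneg
        · rw [c4 σ h]
          refine (ms_apply_le _ _ (A := 1) fun τ _ => ?_).trans (by rw [one_mul]; exact dm σ)
          rw [hχ, col_dgl, ms_single]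
          split_ifs <;> simp)
    refine ⟨χ + L, ?_, fun σ h => by rw [col_add, c1 σ h, l2 σ h, add_zero], fun σ => ?_,
      fun σ => ?_⟩
    · rw [neg_one_smul, ← sub_eq_add_neg, sub_eq_sub_iff_add_eq_add] at l1
      rw [mul_add, add_mul, add_comm, l1]
    · by_cases h : ww o σ ≤ n
      · rw [col_add, c1 σ h, l2 σ h, add_zero]
        exact sp_single ⟨by linarith [z3 n σ h], rfl⟩ _
      · rw [col_add, c2 σ h, zero_add]
        exact (l3 σ).mono fun τ h1 => ⟨h1.1, by have := nz n σ h; have := h1.2; omega⟩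
    · rw [col_add, add_comm]
      refine (ms_add_le _ _).trans (add_le_add (l4 σ) ?_)
      rw [hχ, col_dgl, ms_single]
      split_ifs <;> simp
  choose f f1 f2 f3 f4 using F1
  obtain ⟨A₂, M₂, a2, m2, H2⟩ := ac hd hN ds1 dm hM (A₁ + 1) hc (M₀ := 2 * (M₁ + 1)) (by linarith)
  have F2 := fun n : ℕ => H2 (fun σ => ww (z n σ)) (fun σ => ww o σ ≤ n) (f (n + 1) - f n) deg 1
    abs_one (fun σ => hF _) (by rw [one_smul, mul_sub, sub_mul, f1, f1])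
    (fun σ h => ⟨by rw [col_sub, f2 n σ h, f2 (n + 1) σ (by push_cast; linarith), sub_self],
      zc n σ h⟩)
    (fun σ τ _ h h1 => ⟨ds1 σ τ h, fc n σ τ h h1⟩)
    (fun σ _ => ((f3 (n + 1) σ).mono fun τ h =>
      ⟨by linarith [lip (z n σ) (z (n + 1) σ) τ, z1 n σ, h.1], h.2⟩).sub
      ((f3 n σ).mono fun τ h => ⟨by linarith [h.1], h.2⟩))
    (fun σ => by
      rw [col_sub]
      linarith [ms_sub_le (col (f (n + 1)) σ) (col (f n) σ), f4 (n + 1) σ, f4 n σ])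
  choose G g1 g2 g3 g4 using F2
  obtain ⟨L, l1, -, l3, l4⟩ := H2 (fun _ => ww o) (fun _ => False) (f 0) deg 1 abs_one
    (fun σ => hF _) (by rw [one_smul, f1]) (fun σ h => h.elim)
    (fun σ τ _ h _ => ⟨ds1 σ τ h, fun κ => by linarith⟩)
    (fun σ _ => (f3 0 σ).mono fun τ h => ⟨by have := h.1; rw [z0] at this; linarith, h.2⟩)
    (fun σ => by linarith [f4 0 σ])
  simp only [one_smul] at g1 l1
  set J : E I := ofCol fun σ => ∑ n ∈ range ⌈ww o σ⌉₊, col (G n) σ + col L σ with hJ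
  have j1 : ∀ (k : ℕ) σ, ww o σ ≤ k → col J σ = col (∑ n ∈ range k, G n + L) σ := fun k σ h => by
    have h1 : col (∑ n ∈ range k, G n) σ = ∑ n ∈ range k, col (G n) σ :=
      map_sum (AddMonoidHom.mk' (fun T : E I => col T σ) fun S T => col_add S T σ) G _
    rw [hJ, col_ofCol, col_add, h1, sum_subset (range_subset_range.2 (Nat.ceil_le.2 h))]
    exact fun n _ h2 => g2 n σ (Nat.ceil_le.1 (by simpa using h2))
  refine ⟨J, ext_col fun σ => ?_, fun σ => ?_, fun t ht =>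
    ⟨Real.exp (t * A₂) * M₂ * ((1 - Real.exp (-t))⁻¹ + 1), fun σ => ?_⟩⟩
  · have h := Nat.le_ceil (ww o σ)
    have h1 : d * (∑ n ∈ range ⌈ww o σ⌉₊, G n + L) + (∑ n ∈ range ⌈ww o σ⌉₊, G n + L) * d =
        f ⌈ww o σ⌉₊ := by
      rw [mul_add, add_mul, add_add_add_comm, l1, mul_sum, sum_mul, ← sum_add_distrib,
        sum_congr rfl fun n _ => g1 n, sum_range_sub, sub_add_cancel]
    rw [col_add, col_mul, col_mul, j1 _ σ h, apply_congr (S := J) fun τ h2 => j1 _ τ (zc _ σ h τ h2),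
      ← col_mul, ← col_mul, ← col_add, h1, f2 _ σ h, col_one]
  · rw [hJ, col_ofCol]
    exact (sp_sum fun n _ => (g3 n σ).mono fun τ h => h.2).add ((l3 σ).mono fun τ h => h.2)
  · have p0 : ∀ τ, 0 ≤ Real.exp (t * (ww o τ - ww o σ)) := fun τ => (Real.exp_pos _).le
    have b1 : ∀ (n : ℝ) (ξ : I →₀ ℝ), Sp (fun τ => ww o τ ≤ A₂ + n) ξ → ms ξ ≤ M₂ →
        nm (fun τ => Real.exp (t * (ww o τ - ww o σ))) ξ ≤
          Real.exp (t * A₂) * M₂ * Real.exp (t * (n - ww o σ)) := fun n ξ h1 h2 => by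
      refine (nm_le_of (c := Real.exp (t * A₂) * Real.exp (t * (n - ww o σ))) fun τ hτ => ?_).trans
        (by rw [mul_right_comm _ M₂]; gcongr)
      rw [← Real.exp_add, Real.exp_le_exp, ← mul_add]
      exact mul_le_mul_of_nonneg_left (by linarith [h1 τ (Finsupp.mem_support_iff.1 hτ)]) ht.le
    rw [ms_col_cj, hJ, col_ofCol, mul_add]
    refine (nm_add_le p0 _ _).trans (add_le_add ((nm_sum_le p0 _ _).trans ?_) ?_)
    · refine (sum_le_sum fun (n : ℕ) _ => b1 n _ ((g3 n σ).mono fun τ h => by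
        linarith [lip o (z n σ) τ, z4 n σ, h.1]) (g4 n σ)).trans ?_
      rw [← mul_sum]
      exact mul_le_mul_of_nonneg_left (geom_le ht (w0 σ)) (by positivity)
    · refine (b1 0 _ ((l3 σ).mono fun τ h => by linarith [h.1]) (l4 σ)).trans ?_
      refine mul_le_mul_of_nonneg_left (Real.exp_le_one_iff.2 ?_) (by positivity)
      nlinarith [w0 σ]

end Pool.Agent.Lib.BCC
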