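import Pool.Agent.Lib.BCC.Defs

/-! Creation and contraction operators on the exterior algebra in its standard basis. -/

noncomputable section

open Finset

namespace Pool.Agent.Lib.BCC

variable {V : Type} [LinearOrder V]

/-- Sign of a pair. -/
def cs (u v : V) : ℝ := if u < v then -1 else 1

/-- Sign of the position of `v` in `σ`. -/
def sn (v : V) (σ : Finset V) : ℝ := ∏ u ∈ σ, cs u v

lemma cs_self (v : V) : cs v v = 1 := by simp [cs]

lemma cs_sq (u v : V) : cs u v * cs u v = 1 := by unfold cs; split_ifs <;> norm_num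

lemma cs_anti {u v : V} (h : u ≠ v) : cs u v = -cs v u := by
  unfold cs
  rcases lt_or_gt_of_ne h with h | h
  · rw [if_pos h, if_neg h.not_gt]
  · rw [if_neg h.not_gt, if_pos h, neg_neg]

lemma sn_sq (v : V) (σ : Finset V) : sn v σ * sn v σ = 1 := by
  rw [sn, ← prod_mul_distrib]
  exact prod_eq_one fun u _ => cs_sq u v

lemma abs_sn (v : V) (σ : Finset V) : |sn v σ| = 1 := by
  rcases mul_self_eq_one_iff.1 (sn_sq v σ) with h | h <;> simp [h]

lemma sn_insert {u : V} {σ : Finset V} (h : u ∉ σ) (v : V) :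
    sn v (insert u σ) = cs u v * sn v σ := prod_insert h

lemma sn_erase {u : V} {σ : Finset V} (h : u ∈ σ) (v : V) :
    sn v (σ.erase u) = cs u v * sn v σ := by
  conv_rhs => rw [← insert_erase h, sn_insert (notMem_erase u σ), ← mul_assoc, cs_sq, one_mul]

/-- Creation. -/
def cr (v : V) : E (Finset V) :=
  ofCol fun σ => if v ∈ σ then 0 else Finsupp.single (insert v σ) (sn v σ)

/-- Contraction with the functional `f`. -/
def ct (f : V → ℝ) : E (Finset V) :=
  ofCol fun σ => ∑ v ∈ σ, Finsupp.single (σ.erase v) (f v * sn v σ)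

lemma col_cr_mem {v : V} {σ : Finset V} (h : v ∈ σ) : col (cr v) σ = 0 := by
  rw [cr, col_ofCol, if_pos h]

lemma col_cr {v : V} {σ : Finset V} (h : v ∉ σ) :
    col (cr v) σ = Finsupp.single (insert v σ) (sn v σ) := by
  rw [cr, col_ofCol, if_neg h]

lemma col_ct (f : V → ℝ) (σ : Finset V) :
    col (ct f) σ = ∑ v ∈ σ, Finsupp.single (σ.erase v) (f v * sn v σ) := col_ofCol _ σ

lemma cr_anti (u v : V) : cr u * cr v + cr v * cr u = 0 := by
  refine ext_col fun σ => ?_
  rw [col_add, col_mul, col_mul, col_zero]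
  by_cases hu : u ∈ σ
  · by_cases hv : v ∈ σ
    · simp [col_cr_mem hu, col_cr_mem hv]
    · simp [col_cr_mem hu, col_cr hv, apply_single, col_cr_mem (mem_insert_of_mem hu)]
  · by_cases hv : v ∈ σ
    · simp [col_cr_mem hv, col_cr hu, apply_single, col_cr_mem (mem_insert_of_mem hv)]
    · by_cases h : u = v
      · subst h
        simp [col_cr hu, apply_single, col_cr_mem (mem_insert_self u σ)]
      · have h1 : u ∉ insert v σ := by simp [h, hu]
        have h2 : v ∉ insert u σ := by simp [Ne.symm h, hv]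
        rw [col_cr hu, col_cr hv, apply_single, apply_single, col_cr h1, col_cr h2, sn_insert hu,
          sn_insert hv, insert_comm, Finsupp.smul_single, Finsupp.smul_single, ← Finsupp.single_add,
          cs_anti h, smul_eq_mul, smul_eq_mul]
        ring_nf
        exact Finsupp.single_zero _

lemma ct_cr (f : V → ℝ) (u : V) : ct f * cr u + cr u * ct f = f u • 1 := by
  refine ext_col fun σ => ?_
  rw [col_add, col_mul, col_mul, col_smul, col_one, col_ct, map_sum]
  by_cases hu : u ∈ σ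
  · rw [col_cr_mem hu, map_zero, zero_add, sum_eq_single_of_mem u hu]
    · rw [apply_single, col_cr (notMem_erase u σ), insert_erase hu, sn_erase hu, cs_self, one_mul,
        Finsupp.smul_single, Finsupp.smul_single, smul_eq_mul, smul_eq_mul, mul_assoc, sn_sq]
    · intro v _ hv
      rw [apply_single, col_cr_mem (mem_erase.2 ⟨hv.symm, hu⟩), smul_zero]
  · rw [col_cr hu, apply_single, col_ct, sum_insert hu, smul_add, smul_sum, add_assoc,
      ← sum_add_distrib, sum_eq_zero, add_zero, erase_insert hu, sn_insert hu, cs_self, one_mul,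
      Finsupp.smul_single, Finsupp.smul_single, smul_eq_mul, smul_eq_mul, mul_left_comm, sn_sq]
    intro v hv
    have h : u ≠ v := fun h => hu (h ▸ hv)
    rw [apply_single, col_cr fun h => hu (mem_of_mem_erase h), erase_insert_of_ne h, sn_insert hu,
      sn_erase hv, Finsupp.smul_single, Finsupp.smul_single, ← Finsupp.single_add, cs_anti h,
      smul_eq_mul, smul_eq_mul]
    ring_nf
    exact Finsupp.single_zero _

lemma eq_zero_of_cr {T : E (Finset V)} (h0 : col T ∅ = 0) (h : ∀ u, ∃ S, T * cr u = S * T) :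
    T = 0 := by
  refine ext_col fun σ => ?_
  induction σ using Finset.induction_on with
  | empty => exact h0
  | insert u σ hu ih =>
    obtain ⟨S, hS⟩ := h u
    have h1 := congrArg (fun T => col T σ) hS
    simp only [col_mul, col_cr hu, apply_single, ih, col_zero, map_zero] at h1
    have h2 := congrArg (fun x => sn u σ • x) h1
    simpa only [smul_smul, sn_sq, one_smul, smul_zero, col_zero] using h2

lemma ct_cr' (f : V → ℝ) (u : V) : ct f * cr u = f u • 1 - cr u * ct f :=
  eq_sub_of_add_eq (ct_cr f u)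

lemma ct_sq (f : V → ℝ) : ct f * ct f = 0 := by
  refine eq_zero_of_cr (by simp [col_mul, col_ct]) fun u => ⟨cr u, ?_⟩
  rw [mul_assoc, ct_cr', mul_sub, ← mul_assoc, ct_cr', sub_mul, mul_smul_comm, smul_mul_assoc,
    mul_one, one_mul, sub_sub_cancel, mul_assoc]

lemma ct_sub (f f' : V → ℝ) : ct f - ct f' = ct fun v => f v - f' v :=
  ext_col fun σ => by
    rw [col_sub, col_ct, col_ct, col_ct, ← sum_sub_distrib]
    exact sum_congr rfl fun v _ => by rw [← Finsupp.single_sub, sub_mul]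

lemma nm_col_ct {φ : Finset V → ℝ} (hφ : ∀ τ, 0 ≤ φ τ) (f : V → ℝ) (σ : Finset V) :
    nm φ (col (ct f) σ) ≤ ∑ v ∈ σ, |f v| * φ (σ.erase v) := by
  rw [col_ct]
  refine (nm_sum_le hφ _ _).trans (le_of_eq (sum_congr rfl fun v _ => ?_))
  rw [nm_single, abs_mul, abs_sn, mul_one]

lemma sup_ct {f : V → ℝ} {σ τ : Finset V} (h : col (ct f) σ τ ≠ 0) :
    ∃ v ∈ σ, f v ≠ 0 ∧ τ = σ.erase v := by
  rw [col_ct, Finsupp.finsetSum_apply] at h
  obtain ⟨v, hv, h⟩ := exists_ne_zero_of_sum_ne_zero h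
  obtain ⟨h1, h2⟩ := Finsupp.single_apply_ne_zero.1 h
  exact ⟨v, hv, left_ne_zero_of_mul h2, h1⟩

/-- Exterior multiplication by a vector. -/
def Cr : (V →₀ ℝ) →ₗ[ℝ] E (Finset V) := Finsupp.linearCombination ℝ cr

lemma Cr_eq (m : V →₀ ℝ) : Cr m = ∑ u ∈ m.support, m u • cr u := rfl

lemma Cr_single (u : V) (c : ℝ) : Cr (Finsupp.single u c) = c • cr u :=
  Finsupp.linearCombination_single ℝ c u

lemma Cr_sq (m : V →₀ ℝ) : Cr m * Cr m = 0 := by
  have h1 : Cr m * Cr m = ∑ u ∈ m.support, ∑ v ∈ m.support, (m u * m v) • (cr u * cr v) := by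
    simp only [Cr_eq, sum_mul, mul_sum, smul_mul_smul_comm]
    exact sum_comm
  have h2 : Cr m * Cr m + Cr m * Cr m = 0 := by
    have h3 := h1.trans sum_comm
    nth_rewrite 1 [h3]
    rw [h1, ← sum_add_distrib]
    refine sum_eq_zero fun u _ => ?_
    rw [← sum_add_distrib]
    exact sum_eq_zero fun v _ => by rw [mul_comm (m v), ← smul_add, cr_anti, smul_zero]
  rw [← two_smul ℝ] at h2
  exact (smul_eq_zero.1 h2).resolve_left two_ne_zero

lemma ct_Cr (f : V → ℝ) (m : V →₀ ℝ) :
    ct f * Cr m + Cr m * ct f = (∑ u ∈ m.support, m u * f u) • 1 := by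
  rw [Cr_eq, mul_sum, sum_mul, ← sum_add_distrib, sum_smul]
  exact sum_congr rfl fun u _ => by
    rw [mul_smul_comm, smul_mul_assoc, ← smul_add, ct_cr, smul_smul]

lemma col_sum {I κ : Type} (F : Finset κ) (T : κ → E I) (σ : I) :
    col (∑ k ∈ F, T k) σ = ∑ k ∈ F, col (T k) σ :=
  map_sum (AddMonoidHom.mk' (fun T : E I => col T σ) fun S T => col_add S T σ) T F

lemma nm_col_Cr {φ : Finset V → ℝ} (hφ : ∀ τ, 0 ≤ φ τ) (m : V →₀ ℝ) (σ : Finset V) :
    nm φ (col (Cr m) σ) ≤ ∑ u ∈ m.support, |m u| * φ (insert u σ) := by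
  rw [Cr_eq, col_sum]
  refine (nm_sum_le hφ _ _).trans (sum_le_sum fun u _ => ?_)
  rw [col_smul, nm_smul]
  refine mul_le_mul_of_nonneg_left ?_ (abs_nonneg _)
  by_cases hu : u ∈ σ
  · rw [col_cr_mem hu, nm_zero]
    exact hφ _
  · rw [col_cr hu, nm_single, abs_sn, one_mul]

lemma sup_Cr {m : V →₀ ℝ} {σ τ : Finset V} (h : col (Cr m) σ τ ≠ 0) :
    ∃ u, m u ≠ 0 ∧ u ∉ σ ∧ τ = insert u σ := by
  rw [Cr_eq, col_sum, Finsupp.finsetSum_apply] at h
  obtain ⟨u, hu, h⟩ := exists_ne_zero_of_sum_ne_zero h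
  rw [col_smul, Finsupp.smul_apply, smul_eq_mul] at h
  have h1 := right_ne_zero_of_mul h
  by_cases h2 : u ∈ σ
  · rw [col_cr_mem h2] at h1
    exact absurd rfl h1
  · rw [col_cr h2] at h1
    exact ⟨u, Finsupp.mem_support_iff.1 hu, h2, (Finsupp.single_apply_ne_zero.1 h1).1⟩

section Act

variable {Γ : Type} [Group Γ] [LinearOrder Γ]

/-- Sign of left multiplication on a finite set. -/
def eps (g : Γ) (σ : Finset Γ) : ℝ :=
  ∏ u ∈ σ, ∏ v ∈ σ, if u < v then cs u v * cs (g * u) (g * v) else 1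

lemma eps_insert (g : Γ) {a : Γ} {σ : Finset Γ} (h : a ∉ σ) :
    eps g (insert a σ) = eps g σ * (sn a σ * sn (g * a) (σ.image (g * ·))) := by
  rw [eps, prod_insert h, prod_insert h, if_neg (lt_irrefl a), one_mul, sn, sn,
    prod_image fun _ _ _ _ h => mul_left_cancel h, ← prod_mul_distrib, eps, ← prod_mul_distrib,
    ← prod_mul_distrib]
  refine prod_congr rfl fun u hu => ?_
  have h1 : a ≠ u := fun h1 => h (h1 ▸ hu)
  rw [prod_insert h, ← mul_assoc, mul_comm]
  congr 1
  rcases lt_or_gt_of_ne h1 with h2 | h2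
  · rw [if_pos h2, if_neg h2.not_gt, mul_one, cs_anti h1,
      cs_anti fun h3 => h1 (mul_left_cancel h3), neg_mul_neg]
  · rw [if_neg h2.not_gt, if_pos h2, one_mul]

lemma eps_sq (g : Γ) (σ : Finset Γ) : eps g σ * eps g σ = 1 := by
  induction σ using Finset.induction_on with
  | empty => simp [eps]
  | insert a σ h ih =>
    rw [eps_insert g h, mul_mul_mul_comm, ih, mul_mul_mul_comm, sn_sq, sn_sq]
    norm_num

/-- The action on the exterior algebra. -/
def pi0 (g : Γ) : E (Finset Γ) := ofCol fun σ => Finsupp.single (σ.image (g * ·)) (eps g σ)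

lemma col_pi0 (g : Γ) (σ : Finset Γ) :
    col (pi0 g) σ = Finsupp.single (σ.image (g * ·)) (eps g σ) := col_ofCol _ σ

lemma pi0_cr (g u : Γ) : pi0 g * cr u = cr (g * u) * pi0 g := by
  refine ext_col fun σ => ?_
  rw [col_mul, col_mul, col_pi0, apply_single]
  by_cases hu : u ∈ σ
  · rw [col_cr_mem hu, col_cr_mem (mem_image_of_mem _ hu), map_zero, smul_zero]
  · rw [col_cr hu, col_cr (by simpa using hu), apply_single, col_pi0, eps_insert g hu, image_insert,
      Finsupp.smul_single, Finsupp.smul_single, smul_eq_mul, smul_eq_mul, mul_left_comm,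
      ← mul_assoc (sn u σ), sn_sq, one_mul]

lemma col_pi0_empty (g : Γ) : col (pi0 g) ∅ = Finsupp.single ∅ 1 := by simp [col_pi0, eps]

lemma pi0_one : pi0 (1 : Γ) = 1 := by
  refine sub_eq_zero.1 (eq_zero_of_cr (by simp [col_pi0_empty]) fun u => ⟨cr u, ?_⟩)
  rw [sub_mul, mul_sub, pi0_cr, one_mul, one_mul, mul_one]

lemma pi0_mul (g h : Γ) : pi0 (g * h) = pi0 g * pi0 h := by
  refine sub_eq_zero.1 (eq_zero_of_cr ?_ fun u => ⟨cr (g * h * u), ?_⟩)
  · simp [col_mul, col_pi0_empty, apply_single]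
  · rw [sub_mul, mul_sub, pi0_cr, mul_assoc (pi0 g), pi0_cr, ← mul_assoc (pi0 g), pi0_cr,
      mul_assoc g, mul_assoc]

lemma pi0_ct (g : Γ) (f f' : Γ → ℝ) (hf : ∀ u, f' (g * u) = f u) :
    pi0 g * ct f = ct f' * pi0 g := by
  refine sub_eq_zero.1 (eq_zero_of_cr ?_ fun u => ⟨-cr (g * u), ?_⟩)
  · simp [col_mul, col_pi0_empty, apply_single, col_ct]
  · rw [sub_mul, mul_assoc, mul_assoc, pi0_cr, ct_cr', ← mul_assoc (ct f'), ct_cr', hf, mul_sub,
      ← mul_assoc (pi0 g), pi0_cr, sub_mul, mul_smul_comm, smul_mul_assoc]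
    noncomm_ring

lemma pi0_Cr (g : Γ) (m : Γ →₀ ℝ) : pi0 g * Cr m = Cr (m.mapDomain (g * ·)) * pi0 g := by
  induction m using Finsupp.induction_linear with
  | zero => simp
  | add a b ha hb => rw [Finsupp.mapDomain_add, map_add, map_add, mul_add, add_mul, ha, hb]
  | single u c => rw [Finsupp.mapDomain_single, Cr_single, Cr_single, mul_smul_comm,
      smul_mul_assoc, pi0_cr]

end Act

end Pool.Agent.Lib.BCC
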