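import Pool.Agent.Lib.BCC.Res
import Pool.Agent.Lib.BCC.CAR
import Pool.Agent.Lib.CAT0.Proj

/-! The nerve of the balls round an orbit: partitions of unity, nearest points, operators. -/

noncomputable section

open Finset

namespace Pool.Agent.Lib.BCC

open CAT0

/-- The constants of a proper cocompact action. -/
structure Ctx (Γ X : Type) [Group Γ] [MetricSpace X] [MulAction Γ X] where
  o : X
  ρ : ℝ
  N : ℕ
  hX : SD.HasCNMidpoints X
  cov : ∀ x, ∃ g : Γ, dist x (g • o) ≤ ρ - 1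
  fin : ∀ (x : X) (r : ℝ), {g : Γ | dist x (g • o) ≤ r}.Finite
  card : ∀ x, (fin x (ρ + 2)).toFinset.card ≤ N

namespace Ctx

variable {Γ X : Type} [Group Γ] [MetricSpace X] [MulAction Γ X] (c : Ctx Γ X)

lemma ρ1 : 1 ≤ c.ρ := by
  obtain ⟨g, h⟩ := c.cov c.o
  linarith [dist_nonneg (x := c.o) (y := g • c.o)]

/-- Vertices near a point. -/
def near (x : X) : Finset Γ := (c.fin x (c.ρ + 2)).toFinset

lemma mem_near {x : X} {v : Γ} : v ∈ c.near x ↔ dist x (v • c.o) ≤ c.ρ + 2 :=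
  Set.Finite.mem_toFinset _

/-- The bump vector. -/
def bb (x : X) : Γ →₀ ℝ :=
  Finsupp.onFinset (c.near x) (fun u => max 0 (c.ρ - dist x (u • c.o))) fun u h =>
    c.mem_near.2 (by
      by_contra h1
      exact h (max_eq_left (by linarith [not_le.1 h1])))

lemma bb_apply (x : X) (u : Γ) : c.bb x u = max 0 (c.ρ - dist x (u • c.o)) := rfl

lemma one_le_ms (x : X) : 1 ≤ ms (c.bb x) := by
  obtain ⟨g, h⟩ := c.cov x
  refine le_trans ?_ ((le_abs_self _).trans (abs_le_ms _ g))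
  exact le_max_of_le_right (by linarith)

lemma ms_bb_sub (x y : X) : ms (c.bb x - c.bb y) ≤ 2 * c.N * dist x y := by
  classical
  rw [ms_eq_nm, nm_eq (ξ := c.bb x - c.bb y) (F := c.near x ∪ c.near y) (Finsupp.support_sub.trans
    (union_subset_union Finsupp.support_onFinset_subset Finsupp.support_onFinset_subset))]
  refine (sum_le_card_nsmul _ _ (dist x y) fun u _ => ?_).trans ?_
  · rw [mul_one, Finsupp.sub_apply, bb_apply, bb_apply]
    refine (abs_max_sub_max_le_max _ _ _ _).trans (max_le (by simp) ?_)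
    rw [sub_sub_sub_cancel_left, abs_sub_comm]
    exact abs_dist_sub_le x y _
  · have h : (c.near x ∪ c.near y).card ≤ 2 * c.N :=
      (card_union_le _ _).trans (by have := c.card x; have := c.card y; unfold near; omega)
    rw [nsmul_eq_mul]
    exact mul_le_mul_of_nonneg_right (by exact_mod_cast h) dist_nonneg

/-- The probability vector at a point. -/
def mu (x : X) : Γ →₀ ℝ := (ms (c.bb x))⁻¹ • c.bb x

lemma ms_mu (x : X) : ms (c.mu x) = 1 := by
  have h := c.one_le_ms x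
  rw [mu, ms_smul, abs_of_pos (by positivity), inv_mul_cancel₀ (by positivity)]

lemma mu_sup {x : X} {u : Γ} (h : c.mu x u ≠ 0) : dist x (u • c.o) < c.ρ := by
  by_contra h1
  exact right_ne_zero_of_mul h (max_eq_left (by linarith [not_lt.1 h1]))

lemma sum_mu (x : X) {f : Γ → ℝ} (hf : ∀ u, dist x (u • c.o) < c.ρ → f u = 1) :
    ∑ u ∈ (c.mu x).support, c.mu x u * f u = 1 := by
  rw [← c.ms_mu x, ms]
  refine sum_congr rfl fun u hu => ?_
  rw [hf u (c.mu_sup (Finsupp.mem_support_iff.1 hu)), mul_one, abs_of_nonneg]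
  exact mul_nonneg (inv_nonneg.2 (ms_nonneg _)) (le_max_left _ _)

lemma mu_lip (x y : X) : ms (c.mu x - c.mu y) ≤ 4 * c.N * dist x y := by
  have h1 := c.one_le_ms x
  have h2 := c.one_le_ms y
  have h3 := c.ms_bb_sub x y
  have h4 := c.ms_bb_sub y x
  have h5 := ms_add_le (c.bb x - c.bb y) (c.bb y)
  have h6 := ms_add_le (c.bb y - c.bb x) (c.bb x)
  rw [sub_add_cancel] at h5 h6
  rw [dist_comm] at h4
  have e : c.mu x - c.mu y = (ms (c.bb x))⁻¹ • (c.bb x - c.bb y) +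
      ((ms (c.bb x))⁻¹ * (ms (c.bb y) - ms (c.bb x))) • c.mu y := by
    rw [mu, mu, smul_smul, smul_sub, sub_add, ← sub_smul]
    congr 2
    field_simp
    ring
  have h7 : (ms (c.bb x))⁻¹ ≤ 1 := inv_le_one_of_one_le₀ h1
  have h8 : |ms (c.bb y) - ms (c.bb x)| ≤ 2 * c.N * dist x y := abs_le.2 ⟨by linarith, by linarith⟩
  rw [e]
  refine (ms_add_le _ _).trans ?_
  rw [ms_smul, ms_smul, ms_mu, mul_one, abs_mul, abs_of_pos (by positivity)]
  nlinarith [mul_le_mul h7 h3 (ms_nonneg _) zero_le_one,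
    mul_le_mul h7 h8 (abs_nonneg _) zero_le_one]

lemma mu_lip' (x y : X) : ms (c.mu x - c.mu y) ≤ (4 * c.N + 2) * min 1 (dist x y) := by
  have h0 : (0 : ℝ) ≤ c.N := c.N.cast_nonneg
  rcases le_total 1 (dist x y) with h | h
  · rw [min_eq_left h]
    linarith [ms_sub_le (c.mu x) (c.mu y), c.ms_mu x, c.ms_mu y]
  · rw [min_eq_right h]
    linarith [c.mu_lip x y, dist_nonneg (x := x) (y := y)]

lemma mu_smul [IsIsometricSMul Γ X] (g : Γ) (x : X) :
    c.mu (g • x) = (c.mu x).mapDomain (g * ·) := by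
  classical
  have h1 : c.bb (g • x) = (c.bb x).mapDomain (g * ·) := by
    ext u
    obtain ⟨v, rfl⟩ : ∃ v, u = g * v := ⟨g⁻¹ * u, by group⟩
    rw [Finsupp.mapDomain_apply (mul_right_injective g), bb_apply, bb_apply, mul_smul, dist_smul]
  rw [mu, mu, Finsupp.mapDomain_smul, h1, ms, ms,
    Finsupp.mapDomain_support_of_injective (mul_right_injective g),
    sum_image fun _ _ _ _ h => mul_left_cancel h]
  simp only [Finsupp.mapDomain_apply (mul_right_injective g)]

/-- The cut-off function at a point. -/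
def chi (x : X) (v : Γ) : ℝ := min 1 (max 0 (c.ρ + 1 - dist x (v • c.o)))

lemma chi_one {x : X} {v : Γ} (h : dist x (v • c.o) < c.ρ) : c.chi x v = 1 :=
  min_eq_left (le_max_of_le_right (by linarith))

lemma chi_sup {x : X} {v : Γ} (h : c.chi x v ≠ 0) : dist x (v • c.o) < c.ρ + 2 := by
  by_contra h1
  exact h (by rw [chi, max_eq_left (by linarith [not_lt.1 h1]), min_eq_right zero_le_one])

lemma abs_chi (x : X) (v : Γ) : |c.chi x v| ≤ 1 :=
  abs_le.2 ⟨(by norm_num : (-1 : ℝ) ≤ 0).trans (le_min zero_le_one (le_max_left _ _)),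
    min_le_left _ _⟩

lemma chi_lip (x y : X) (v : Γ) : |c.chi x v - c.chi y v| ≤ dist x y := by
  refine (abs_min_sub_min_le_max _ _ _ _).trans (max_le (by simp) ?_)
  refine (abs_max_sub_max_le_max _ _ _ _).trans (max_le (by simp) ?_)
  rw [sub_sub_sub_cancel_left, abs_sub_comm]
  exact abs_dist_sub_le x y _

/-- The intersection of the balls. -/
def L (σ : Finset Γ) : Set X := Lens (fun v : Γ => v • c.o) (c.ρ + 2) σ

/-- Simplices. -/
def S (σ : Finset Γ) : Prop := (c.L σ).Nonempty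

lemma R1 : 1 ≤ c.ρ + 2 := by linarith [c.ρ1]

lemma R0 : 0 < c.ρ + 2 := by linarith [c.ρ1]

lemma sub_near {σ : Finset Γ} {x : X} (h : x ∈ c.L σ) : σ ⊆ c.near x :=
  fun v hv => c.mem_near.2 (h v hv)

lemma card_le {σ : Finset Γ} (h : c.S σ) : σ.card ≤ c.N :=
  (card_le_card (c.sub_near h.choose_spec)).trans (c.card _)

lemma S_anti {σ τ : Finset Γ} (h : c.S σ) (h1 : τ ⊆ σ) : c.S τ := h.mono (lens_anti _ _ h1)

variable [CompleteSpace X]

open Classical in
/-- The nearest point. -/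
def P (z : X) (σ : Finset Γ) : X :=
  if h : c.S σ then (exists_isProj (isClosed_lens _ _ σ) (isCvx_lens c.hX _ _ σ) h z).choose else z

lemma isProj (z : X) {σ : Finset Γ} (h : c.S σ) : IsProj (c.L σ) z (c.P z σ) := by
  rw [P, dif_pos h]
  exact (exists_isProj (isClosed_lens _ _ σ) (isCvx_lens c.hX _ _ σ) h z).choose_spec

lemma P_eq {z p : X} {σ : Finset Γ} (h : IsProj (c.L σ) z p) : c.P z σ = p :=
  (c.isProj z ⟨p, h.1⟩).unique h (isCvx_lens c.hX _ _ σ)

/-- The distance to the intersection of the balls. -/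
def W (z : X) (σ : Finset Γ) : ℝ := dist z (c.P z σ)

lemma W_le (z : X) {σ : Finset Γ} {q : X} (h : q ∈ c.L σ) : c.W z σ ≤ dist z q :=
  (c.isProj z ⟨q, h⟩).2 q h

lemma W_lip (x y : X) {σ : Finset Γ} (h : c.S σ) : c.W x σ ≤ c.W y σ + dist x y := by
  linarith [(abs_le.1 ((c.isProj x h).dist_sub_le (c.isProj y h))).2, W.eq_1 c x σ, W.eq_1 c y σ]

lemma P_empty (z : X) : c.P z ∅ = z := c.P_eq (isProj_self fun _ h => absurd h (notMem_empty _))

lemma W_fin (z : X) (A : ℝ) : {σ : Subtype c.S | c.W z σ.1 ≤ A}.Finite := by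
  refine ((c.fin z (A + (c.ρ + 2))).toFinset.powerset.finite_toSet.preimage
    Subtype.val_injective.injOn).subset fun σ h => ?_
  refine mem_coe.2 (mem_powerset.2 fun v hv => (Set.Finite.mem_toFinset _).2 ?_)
  exact (dist_triangle _ (c.P z σ.1) _).trans (add_le_add h ((c.isProj z σ.2).1 v hv))

variable [LinearOrder Γ]

lemma P_smul [IsIsometricSMul Γ X] (g : Γ) (z : X) {σ : Finset Γ} (h : c.S σ) :
    c.P (g • z) (σ.image (g * ·)) = g • c.P z σ := c.P_eq ((c.isProj z h).smul g)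

/-- The local homotopy. -/
def hh (z : X) : E (Finset Γ) := ofCol fun σ => col (Cr (c.mu (c.P z σ))) σ

/-- The local differential. -/
def ii (z : X) : E (Finset Γ) := ofCol fun σ => col (ct (c.chi (c.P z σ))) σ

lemma col_hh (z : X) (σ : Finset Γ) : col (c.hh z) σ = col (Cr (c.mu (c.P z σ))) σ :=
  col_ofCol _ σ

lemma col_ii (z : X) (σ : Finset Γ) : col (c.ii z) σ = col (ct (c.chi (c.P z σ))) σ :=
  col_ofCol _ σ

lemma hh_sup (z : X) {σ : Finset Γ} (h : c.S σ) :
    Sp (fun τ => c.S τ ∧ τ.card = σ.card + 1 ∧ c.P z τ = c.P z σ) (col (c.hh z) σ) := by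
  intro τ h1
  rw [col_hh] at h1
  obtain ⟨u, h2, h3, rfl⟩ := sup_Cr h1
  have h4 := (c.isProj z h).lens_insert (a := u) (by linarith [c.mu_sup h2])
  exact ⟨⟨_, h4.1⟩, card_insert_of_notMem h3, c.P_eq h4⟩

lemma ii_sup (z : X) {σ : Finset Γ} (h : c.S σ) :
    Sp (fun τ => c.S τ ∧ τ.card + 1 = σ.card ∧ c.P z τ = c.P z σ) (col (c.ii z) σ) := by
  intro τ h1
  rw [col_ii] at h1
  obtain ⟨u, h2, h3, rfl⟩ := sup_ct h1
  have h4 := (c.isProj z h).lens_erase (hX := c.hX) (a := u) (c.chi_sup h3)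
  exact ⟨⟨_, h4.1⟩, card_erase_add_one h2, c.P_eq h4⟩

omit [CompleteSpace X] in
lemma dd_sup {σ : Finset Γ} (h : c.S σ) :
    Sp (fun τ => c.S τ ∧ τ.card + 1 = σ.card ∧ τ ⊆ σ) (col (ct fun _ => 1) σ) := by
  intro τ h1
  obtain ⟨u, h2, -, rfl⟩ := sup_ct h1
  exact ⟨c.S_anti h (erase_subset _ _), card_erase_add_one h2, erase_subset _ _⟩

omit [LinearOrder Γ] in
lemma W_mono (z : X) {σ τ : Finset Γ} (h : c.S σ) (h1 : τ ⊆ σ) : c.W z τ ≤ c.W z σ :=
  c.W_le z (lens_anti _ _ h1 (c.isProj z h).1)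

lemma hh_hh (z : X) {σ : Finset Γ} (h : c.S σ) (T : X → E (Finset Γ)) {T' : E (Finset Γ)}
    (hT : ∀ τ, col T' τ = col (T (c.P z τ)) τ) :
    col (T' * c.hh z) σ = col (T (c.P z σ) * Cr (c.mu (c.P z σ))) σ := by
  rw [col_mul, col_mul, ← col_hh]
  exact apply_congr fun τ h1 => by rw [hT, (c.hh_sup z h τ h1).2.2]

lemma ii_ii (z : X) {σ : Finset Γ} (h : c.S σ) (T : X → E (Finset Γ)) {T' : E (Finset Γ)}
    (hT : ∀ τ, col T' τ = col (T (c.P z τ)) τ) :
    col (T' * c.ii z) σ = col (T (c.P z σ) * ct (c.chi (c.P z σ))) σ := by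
  rw [col_mul, col_mul, ← col_ii]
  exact apply_congr fun τ h1 => by rw [hT, (c.ii_sup z h τ h1).2.2]

omit [Group Γ] in
lemma ms_Cr (m : Γ →₀ ℝ) (σ : Finset Γ) : ms (col (Cr m) σ) ≤ ms m := by
  rw [ms_eq_nm, ms]
  simpa using nm_col_Cr (φ := fun _ => 1) (fun _ => zero_le_one) m σ

lemma ms_hh (z : X) (σ : Finset Γ) : ms (col (c.hh z) σ) ≤ 1 := by
  rw [col_hh, ← c.ms_mu (c.P z σ)]
  exact ms_Cr _ σ

omit [CompleteSpace X] in
lemma ms_ct {f : Γ → ℝ} {A : ℝ} (hA : 0 ≤ A) (hf : ∀ v, |f v| ≤ A) {σ : Finset Γ} (h : c.S σ) :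
    ms (col (ct f) σ) ≤ c.N * A := by
  rw [ms_eq_nm]
  refine (nm_col_ct (fun _ => zero_le_one) f σ).trans
    ((sum_le_card_nsmul _ _ A fun v _ => by rw [mul_one]; exact hf v).trans ?_)
  rw [nsmul_eq_mul]
  exact mul_le_mul_of_nonneg_right (Nat.cast_le.2 (c.card_le h)) hA

lemma col_K (z : X) (σ : Finset Γ) :
    col (1 - (ct fun _ => 1) * c.hh z - c.hh z * ct fun _ => 1) σ = ∑ v ∈ σ,
      sn v σ • col (Cr (c.mu (c.P z σ) - c.mu (c.P z (σ.erase v)))) (σ.erase v) := by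
  have h1 := ct_Cr (fun _ => 1) (c.mu (c.P z σ))
  rw [c.sum_mu _ fun _ _ => rfl, one_smul] at h1
  rw [col_sub, col_sub, col_mul, col_hh, ← col_mul, ← h1, col_add, add_sub_cancel_left, col_mul,
    col_mul, col_ct, map_sum, map_sum, ← sum_sub_distrib]
  exact sum_congr rfl fun v _ => by
    rw [apply_single, apply_single, col_hh, one_mul, map_sub, col_sub, smul_sub]

lemma K_bound {δ : ℝ} (hδ : 0 < δ) : ∃ t₀ : ℝ, 0 < t₀ ∧ ∀ t, t₀ ≤ t → ∀ (z : X) σ, c.S σ →
    nm (fun τ => Real.exp (t * (c.W z τ - c.W z σ)))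
      (col (1 - (ct fun _ => 1) * c.hh z - c.hh z * ct fun _ => 1) σ) ≤ δ := by
  have R0 := c.R0
  set η := δ / (c.N * (4 * c.N + 2) + 1) with hη
  have η0 : 0 < η := by positivity
  have t0 : 0 < 4 * (c.ρ + 2) / η ^ 3 := by positivity
  refine ⟨_, t0, fun t ht z σ h => ?_⟩
  have p0 : ∀ τ, 0 ≤ Real.exp (t * (c.W z τ - c.W z σ)) := fun τ => (Real.exp_pos _).le
  rw [col_K]
  refine (nm_sum_le p0 _ _).trans ((sum_le_card_nsmul _ _ ((4 * c.N + 2) * η) fun v _ => ?_).trans ?_)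
  · have h1 := c.S_anti h (erase_subset v σ)
    obtain ⟨q, q1, q2, q3⟩ := (c.isProj z h1).lens_step (hX := c.hX) c.R1
      (lens_anti _ _ (erase_subset v σ) (c.isProj z h).1)
    have h2 := c.mu_lip' (c.P z σ) (c.P z (σ.erase v))
    set m := min 1 (dist (c.P z σ) (c.P z (σ.erase v))) with hm
    have m0 : 0 ≤ m := le_min zero_le_one dist_nonneg
    have m1 : m ≤ 1 := min_le_left _ _
    have h3 : m * Real.exp (-(t * (m ^ 2 / (4 * (c.ρ + 2))))) ≤ η := by
      rcases le_total m η with h4 | h4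
      · exact (mul_le_of_le_one_right m0 (Real.exp_le_one_iff.2 (neg_nonpos.2
          (mul_nonneg (t0.le.trans ht) (by positivity))))).trans h4
      · refine (mul_le_of_le_one_left (Real.exp_pos _).le m1).trans ?_
        have h5 : η⁻¹ ≤ t * (m ^ 2 / (4 * (c.ρ + 2))) := by
          refine le_trans (le_of_eq ?_) (mul_le_mul ht (div_le_div_of_nonneg_right
            (pow_le_pow_left₀ η0.le h4 2) (by positivity)) (by positivity) (t0.le.trans ht))
          field_simp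
        rw [Real.exp_neg]
        exact inv_le_of_inv_le₀ η0 (by linarith [Real.add_one_le_exp (t * (m ^ 2 / (4 * (c.ρ + 2))))])
    rw [nm_smul, abs_sn, one_mul]
    refine (nm_col_Cr p0 _ _).trans ((nm_le_of (φ := fun u => Real.exp
      (t * (c.W z (insert u (σ.erase v)) - c.W z σ)))
      (c := Real.exp (-(t * (m ^ 2 / (4 * (c.ρ + 2)))))) fun u hu => ?_).trans ?_)
    · have h4 : c.W z (insert u (σ.erase v)) ≤ dist z q := by
        by_cases h5 : c.mu (c.P z σ) u = 0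
        · have h6 : c.mu (c.P z (σ.erase v)) u ≠ 0 := fun h6 =>
            Finsupp.mem_support_iff.1 hu (by simp [h5, h6])
          exact (c.W_le z ((c.isProj z h1).lens_insert (a := u)
            (by linarith [c.mu_sup h6])).1).trans (c.W_le z q1)
        · refine c.W_le z fun a ha => ?_
          rcases mem_insert.1 ha with rfl | ha
          · linarith [c.mu_sup h5, dist_triangle_left q (a • c.o) (c.P z σ)]
          · exact q1 a ha
      rw [Real.exp_le_exp, ← mul_neg]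
      exact mul_le_mul_of_nonneg_left (by linarith [W.eq_1 c z σ]) (t0.le.trans ht)
    · refine (mul_le_mul_of_nonneg_left h2 (Real.exp_pos _).le).trans ?_
      rw [mul_left_comm, mul_comm _ m]
      exact mul_le_mul_of_nonneg_left h3 (by positivity)
  · have h1 : (σ.card : ℝ) ≤ c.N := Nat.cast_le.2 (c.card_le h)
    have h2 : η * (c.N * (4 * c.N + 2) + 1) = δ := div_mul_cancel₀ _ (by positivity)
    rw [nsmul_eq_mul]
    nlinarith [mul_le_mul_of_nonneg_right h1 (by positivity : 0 ≤ (4 * (c.N : ℝ) + 2) * η)]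

end Ctx

end Pool.Agent.Lib.BCC
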