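import Pool.Agent.Lib.BCC.Defs

/-! The contraction of the augmented chain complex, from local contractions. -/

noncomputable section

open Finset

namespace Pool.Agent.Lib.BCC.J47

section

variable {S : Type}

lemma app_congr {T T' : E S} {ξ : S →₀ ℝ} (h : ∀ σ, ξ σ ≠ 0 → col T σ = col T' σ) :
    T ξ = T' ξ := by
  rw [apply_eq_sum T, apply_eq_sum T']
  exact sum_congr rfl fun σ hσ => by rw [h σ (Finsupp.mem_support_iff.1 hσ)]

/-- The support of `ξ` lies in `P`. -/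
def Sup (P : S → Prop) (ξ : S →₀ ℝ) : Prop := ∀ τ, ξ τ ≠ 0 → P τ

lemma Sup.zero (P : S → Prop) : Sup P 0 := fun _ h => absurd rfl h

lemma Sup.mono {P Q : S → Prop} {ξ : S →₀ ℝ} (h : Sup P ξ) (hPQ : ∀ τ, P τ → Q τ) : Sup Q ξ :=
  fun τ hτ => hPQ τ (h τ hτ)

lemma Sup.add {P : S → Prop} {ξ η : S →₀ ℝ} (h : Sup P ξ) (h' : Sup P η) : Sup P (ξ + η) := by
  intro τ hτ
  by_cases h0 : ξ τ = 0
  · exact h' τ fun h1 => hτ (by simp [h0, h1])
  · exact h τ h0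

lemma Sup.smul {P : S → Prop} {ξ : S →₀ ℝ} (h : Sup P ξ) (a : ℝ) : Sup P (a • ξ) :=
  fun τ hτ => h τ fun h1 => hτ (by simp [h1])

lemma Sup.sub {P : S → Prop} {ξ η : S →₀ ℝ} (h : Sup P ξ) (h' : Sup P η) : Sup P (ξ - η) := by
  rw [sub_eq_add_neg, ← neg_one_smul ℝ η]
  exact h.add (h'.smul _)

lemma Sup.sum {ι : Type} {P : S → Prop} {s : Finset ι} {f : ι → S →₀ ℝ}
    (h : ∀ i ∈ s, Sup P (f i)) : Sup P (∑ i ∈ s, f i) :=
  sum_induction f (Sup P) (fun _ _ => Sup.add) (Sup.zero P) h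

lemma Sup.single (P : S → Prop) {σ : S} (h : P σ) (a : ℝ) : Sup P (Finsupp.single σ a) := by
  intro τ hτ
  obtain rfl : τ = σ := by
    by_contra hne
    exact hτ (Finsupp.single_eq_of_ne hne)
  exact h

lemma Sup.app {P : S → Prop} {ξ : S →₀ ℝ} {T : E S} (h : ∀ σ, ξ σ ≠ 0 → Sup P (col T σ)) :
    Sup P (T ξ) := by
  rw [apply_eq_sum]
  exact Sup.sum fun σ hσ => (h σ (Finsupp.mem_support_iff.1 hσ)).smul _

lemma eq_zero_of_ms {ξ : S →₀ ℝ} (h : ms ξ ≤ 0) : ξ = 0 :=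
  Finsupp.ext fun σ => abs_nonpos_iff.1 ((abs_le_ms ξ σ).trans h)

lemma ms_app {T : E S} {ξ : S →₀ ℝ} {M : ℝ} (h : ∀ σ, ξ σ ≠ 0 → ms (col T σ) ≤ M) :
    ms (T ξ) ≤ M * ms ξ := by
  rw [ms_eq_nm, ms_eq_nm]
  exact nm_apply_le (fun _ => zero_le_one) T ξ fun σ hσ => by
    rw [mul_one, ← ms_eq_nm]
    exact h σ (Finsupp.mem_support_iff.1 hσ)

lemma ms_add (ξ η : S →₀ ℝ) : ms (ξ + η) ≤ ms ξ + ms η := by
  simp only [ms_eq_nm]
  exact nm_add_le (fun _ => zero_le_one) ξ η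

lemma ms_sub (ξ η : S →₀ ℝ) : ms (ξ - η) ≤ ms ξ + ms η := by
  simp only [ms_eq_nm]
  exact nm_sub_le (fun _ => zero_le_one) ξ η

lemma ms_smul (a : ℝ) (ξ : S →₀ ℝ) : ms (a • ξ) = |a| * ms ξ := by
  simp only [ms_eq_nm]
  exact nm_smul _ a ξ

lemma ms_single (σ : S) (a : ℝ) : ms (Finsupp.single σ a) = |a| := by
  rw [ms_eq_nm, nm_single, mul_one]

/-- An injective operator is onto on every finite coordinate subspace it preserves. -/
lemma surj_fin {A : E S} (hA : Function.Injective A) {P : S → Prop} (hP : {σ | P σ}.Finite)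
    (hAP : ∀ σ, P σ → Sup P (col A σ)) {ξ : S →₀ ℝ} (hξ : Sup P ξ) : ∃ η, Sup P η ∧ A η = ξ := by
  have hm : ∀ η : S →₀ ℝ, η ∈ Finsupp.supported ℝ ℝ {σ | P σ} ↔ Sup P η := fun η => by
    rw [Finsupp.mem_supported]
    exact ⟨fun h τ hτ => h (Finsupp.mem_support_iff.2 hτ),
      fun h τ hτ => h τ (Finsupp.mem_support_iff.1 hτ)⟩
  have hp : ∀ η ∈ Finsupp.supported ℝ ℝ {σ | P σ}, A.lin η ∈ Finsupp.supported ℝ ℝ {σ | P σ} :=
    fun η hη => (hm _).2 (Sup.app fun σ hσ => hAP σ ((hm _).1 hη σ hσ))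
  have : Finite {σ | P σ} := hP
  have : FiniteDimensional ℝ (Finsupp.supported ℝ ℝ {σ | P σ}) :=
    (Finsupp.supportedEquivFinsupp (R := ℝ) (M := ℝ) {σ | P σ}).symm.finiteDimensional
  have hi : Function.Injective (A.lin.restrict hp) := fun a b hab =>
    Subtype.ext (hA (congrArg Subtype.val hab))
  have hs : Function.Surjective (A.lin.restrict hp) :=
    (LinearMap.injective_iff_surjective (K := ℝ) (V := Finsupp.supported ℝ ℝ {σ | P σ})
      (f := A.lin.restrict hp)).1 hi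
  obtain ⟨η, hη⟩ := hs ⟨ξ, (hm _).2 hξ⟩
  exact ⟨η.1, (hm _).1 η.2, congrArg Subtype.val hη⟩

/-- The local contraction. -/
theorem exists_j {w : S → ℝ} {deg : S → ℕ} {d h : E S} {t0 : ℝ}
    (w_fin : ∀ D : ℝ, {σ | w σ ≤ D}.Finite) (dd : d * d = 0)
    (d_sup : ∀ σ τ, col d σ τ ≠ 0 → deg τ + 1 = deg σ ∧ w τ ≤ w σ)
    (h_sup : ∀ σ τ, col h σ τ ≠ 0 → deg τ = deg σ + 1 ∧ w τ ≤ w σ)
    (K_ms : ∀ σ, ms (col (cj w t0 (1 - d * h - h * d)) σ) ≤ 1 / 2) :
    ∃ j : E S, d * j + j * d = 1 ∧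
      ∀ σ, Sup (fun τ => w τ ≤ w σ ∧ deg τ = deg σ + 1) (col j σ) := by
  set A := d * h + h * d with hA
  have hi : Function.Injective A := by
    rw [injective_iff_map_eq_zero]
    intro ξ hξ
    set η := dgl (fun σ => Real.exp (t0 * w σ)) ξ with hη
    have h0 : (dgl fun σ => Real.exp (-(t0 * w σ))) η = ξ := by
      rw [hη, ← mul_apply, dgl_exp_neg, one_apply]
    have h1 := ms_app (T := cj w t0 (1 - d * h - h * d)) (ξ := η) fun σ _ => K_ms σ
    rw [cj, mul_apply, mul_apply, h0, sub_sub, sub_apply, hξ, sub_zero, one_apply] at h1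
    have h2 : η = 0 := eq_zero_of_ms (by linarith)
    rw [← h0, h2, map_zero]
  have hsd : ∀ {D : ℝ} {k : ℕ} {ξ : S →₀ ℝ}, Sup (fun τ => w τ ≤ D ∧ deg τ = k) ξ →
      Sup (fun τ => w τ ≤ D ∧ deg τ + 1 = k) (d ξ) := fun hξ => Sup.app fun σ hσ τ hτ =>
      ⟨(d_sup σ τ hτ).2.trans (hξ σ hσ).1, (d_sup σ τ hτ).1.trans (hξ σ hσ).2⟩
  have hsh : ∀ {D : ℝ} {k : ℕ} {ξ : S →₀ ℝ}, Sup (fun τ => w τ ≤ D ∧ deg τ + 1 = k) ξ →
      Sup (fun τ => w τ ≤ D ∧ deg τ = k) (h ξ) := fun hξ => Sup.app fun σ hσ τ hτ =>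
      ⟨(h_sup σ τ hτ).2.trans (hξ σ hσ).1, (h_sup σ τ hτ).1.trans (hξ σ hσ).2⟩
  have hsur : ∀ (D : ℝ) (k : ℕ) (ξ : S →₀ ℝ), Sup (fun τ => w τ ≤ D ∧ deg τ = k) ξ →
      ∃ η, Sup (fun τ => w τ ≤ D ∧ deg τ = k) η ∧ A η = ξ := fun D k ξ hξ => by
    refine surj_fin hi ((w_fin D).subset fun σ hσ => hσ.1) (fun σ hσ => ?_) hξ
    have h0 := Sup.single (fun τ => w τ ≤ D ∧ deg τ = k) hσ 1
    have h1 := hsd (hsh (k := k + 1) (h0.mono fun τ hτ => ⟨hτ.1, by rw [hτ.2]⟩))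
    exact (h1.mono fun τ hτ => ⟨hτ.1, Nat.succ_injective hτ.2⟩).add (hsh (hsd h0))
  choose B hB hAB using fun σ => hsur (w σ) (deg σ) _
    (Sup.single (fun τ => w τ ≤ w σ ∧ deg τ = deg σ) ⟨le_rfl, rfl⟩ 1)
  have h1 : A * ofCol B = 1 := ext_col fun σ => by rw [col_mul, col_ofCol, hAB, col_one]
  have h2 : A * d = d * A := by
    rw [hA, add_mul, mul_add, mul_assoc h d d, ← mul_assoc d d h, dd]
    simp [mul_assoc]
  have h3 : ofCol B * d = d * ofCol B := by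
    refine ext_col fun σ => hi ?_
    rw [← col_mul, ← col_mul, ← mul_assoc, h1, ← mul_assoc, h2, mul_assoc, h1, one_mul, mul_one]
  refine ⟨h * ofCol B, ?_, fun σ => ?_⟩
  · rw [mul_assoc, h3, ← mul_assoc, ← mul_assoc, ← add_mul, h1]
  · rw [col_mul, col_ofCol]
    exact hsh ((hB σ).mono fun τ hτ => ⟨hτ.1, by rw [hτ.2]⟩)

/-- Recursion on the degree. -/
lemma exists_rec {d : E S} {deg : S → ℕ} {N : ℕ} (deg_le : ∀ σ, deg σ ≤ N)
    (deg_d : ∀ σ τ, col d σ τ ≠ 0 → deg τ < deg σ) (Φ : S → (S →₀ ℝ) → S →₀ ℝ) :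
    ∃ f : E S, ∀ σ, col f σ = Φ σ (f (col d σ)) := by
  set step : E S → E S := fun f => ofCol fun σ => Φ σ (f (col d σ)) with hstep
  have h : ∀ (k : ℕ) (f f' : E S) (σ : S), deg σ < k →
      col (step^[k] f) σ = col (step^[k] f') σ := by
    intro k
    induction k with
    | zero => exact fun _ _ _ h => absurd h (Nat.not_lt_zero _)
    | succ k ih =>
      intro f f' σ hσ
      rw [Function.iterate_succ_apply', Function.iterate_succ_apply', hstep]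
      simp only [col_ofCol]
      congr 1
      exact app_congr fun τ hτ => ih f f' τ (by have := deg_d σ τ hτ; omega)
  refine ⟨step^[N + 1] 0, fun σ => ?_⟩
  rw [h (N + 1) 0 (step 0) σ (Nat.lt_succ_of_le (deg_le σ)), ← Function.iterate_succ_apply,
    Function.iterate_succ_apply']
  exact col_ofCol _ σ

lemma face_ind {d : E S} {deg : S → ℕ} (deg_d : ∀ σ τ, col d σ τ ≠ 0 → deg τ < deg σ)
    {P : S → Prop} (h : ∀ σ, (∀ τ, col d σ τ ≠ 0 → P τ) → P σ) (σ : S) : P σ := by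
  induction hk : deg σ using Nat.strong_induction_on generalizing σ with
  | _ k ih => exact h σ fun τ hτ => ih (deg τ) (hk ▸ deg_d σ τ hτ) τ rfl

/-- The solution of the recursion is a chain homotopy. -/
lemma rec_chain {d : E S} {deg : S → ℕ} {nil : S} (dd : d * d = 0)
    (deg_d : ∀ σ τ, col d σ τ ≠ 0 → deg τ < deg σ) {j : S → E S}
    (hj : ∀ σ, d * j σ + j σ * d = 1) {A f : E S} {s : ℝ} (hA : d * A = -s • (A * d))
    (h0 : d (col f nil) = col A nil + s • f (col d nil))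
    (hf : ∀ σ, σ ≠ nil → col f σ = j σ (col A σ + s • f (col d σ))) :
    d * f = A + s • (f * d) := by
  refine ext_col (face_ind deg_d fun σ ih => ?_)
  by_cases hσ : σ = nil
  · subst hσ
    exact h0
  have h1 : (d * f) (col d σ) = (A + s • (f * d)) (col d σ) := app_congr ih
  have h2 : d (col d σ) = 0 := by rw [← col_mul, dd, col_zero]
  have h3 : d (col A σ + s • f (col d σ)) = 0 := by
    rw [map_add, map_smul, ← mul_apply d f, h1, add_apply, smul_apply, mul_apply, h2, map_zero,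
      smul_zero, add_zero, ← col_mul, hA, col_smul, col_mul, ← add_smul, neg_add_cancel, zero_smul]
  have h4 := congrArg (fun T : E S => T (col A σ + s • f (col d σ))) (hj σ)
  simp only [add_apply, mul_apply, h3, map_zero, add_zero, one_apply] at h4
  rw [col_mul, hf σ hσ, h4]
  rfl

/-- Support and mass bounds for the solution of the recursion. -/
lemma rec_bound {ι : Type} {d : E S} {deg : S → ℕ} {N : ℕ} {nil : S} {C D : ℝ}
    (deg_le : ∀ σ, deg σ ≤ N) (deg_d : ∀ σ τ, col d σ τ ≠ 0 → deg τ + 1 = deg σ)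
    (d_ms : ∀ σ, ms (col d σ) ≤ C) {W : ι → S → S → ℝ} (W_nil : ∀ n σ, W n σ nil ≤ 0)
    (hD : 0 ≤ D) (W_d : ∀ n σ σ', col d σ σ' ≠ 0 → σ' ≠ nil → ∀ τ, W n σ τ ≤ W n σ' τ + D)
    {j : ι → S → E S} (hj : ∀ B : ℝ, ∃ M : ℝ, 0 ≤ M ∧ ∀ n σ k ξ,
      Sup (fun τ => W n σ τ ≤ B ∧ deg τ + 1 = k) ξ →
      Sup (fun τ => W n σ τ ≤ B ∧ deg τ = k) (j n σ ξ) ∧ ms (j n σ ξ) ≤ M * ms ξ)
    {A f : ι → E S} {s : ℝ} {e : ℕ} {B0 M0 : ℝ}
    (hA : ∀ n σ, σ ≠ nil → Sup (fun τ => W n σ τ ≤ B0 ∧ deg τ + 1 = deg σ + e) (col (A n) σ) ∧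
      ms (col (A n) σ) ≤ M0)
    (h0 : ∀ n, Sup (fun τ => τ = nil ∧ deg τ = deg nil + e) (col (f n) nil) ∧
      ms (col (f n) nil) ≤ 1)
    (hf : ∀ n σ, σ ≠ nil → col (f n) σ = j n σ (col (A n) σ + s • f n (col d σ))) :
    ∃ B M : ℝ, 0 ≤ B ∧ 0 ≤ M ∧ ∀ n σ,
      Sup (fun τ => W n σ τ ≤ B ∧ deg τ = deg σ + e) (col (f n) σ) ∧ ms (col (f n) σ) ≤ M := by
  have key : ∀ k : ℕ, ∃ B M : ℝ, 0 ≤ B ∧ 1 ≤ M ∧ ∀ n σ, deg σ < k →
      Sup (fun τ => W n σ τ ≤ B ∧ deg τ = deg σ + e) (col (f n) σ) ∧ ms (col (f n) σ) ≤ M := by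
    intro k
    induction k with
    | zero => exact ⟨0, 1, le_rfl, le_rfl, fun _ _ h => absurd h (Nat.not_lt_zero _)⟩
    | succ k ih =>
      obtain ⟨B, M, hB, hM, ih⟩ := ih
      obtain ⟨M1, hM1, hj1⟩ := hj (max B0 (B + D))
      refine ⟨max B0 (B + D), max 1 (M1 * (M0 + |s| * (M * C))), le_max_of_le_right (by linarith),
        le_max_left _ _, fun n σ hσ => ?_⟩
      by_cases hn : σ = nil
      · subst hn
        exact ⟨(h0 n).1.mono fun τ hτ => ⟨by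
          rw [hτ.1]; exact (W_nil n _).trans (le_max_of_le_right (by linarith)), hτ.2⟩,
          le_max_of_le_left (h0 n).2⟩
      have hlt : ∀ σ', col d σ σ' ≠ 0 → deg σ' < k := fun σ' h => by
        have := deg_d σ σ' h
        omega
      have h1 : Sup (fun τ => W n σ τ ≤ max B0 (B + D) ∧ deg τ + 1 = deg σ + e)
          (f n (col d σ)) := Sup.app fun σ' hσ' τ hτ => by
        have h2 := (ih n σ' (hlt σ' hσ')).1 τ hτ
        have h3 := deg_d σ σ' hσ'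
        refine ⟨le_max_of_le_right ?_, by omega⟩
        by_cases hn' : σ' = nil
        · subst hn'
          rw [((h0 n).1 τ hτ).1]
          linarith [W_nil n σ]
        · linarith [W_d n σ σ' hσ' hn' τ, h2.1]
      have h2 : ms (f n (col d σ)) ≤ M * C :=
        (ms_app fun σ' hσ' => (ih n σ' (hlt σ' hσ')).2).trans
          (mul_le_mul_of_nonneg_left (d_ms σ) (by linarith))
      have h3 := hj1 n σ _ _ ((((hA n σ hn).1.mono fun τ hτ =>
        ⟨le_max_of_le_left hτ.1, hτ.2⟩)).add (h1.smul s))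
      rw [hf n σ hn]
      refine ⟨h3.1, le_max_of_le_right (h3.2.trans (mul_le_mul_of_nonneg_left ?_ hM1))⟩
      refine (ms_add _ _).trans (add_le_add (hA n σ hn).2 ?_)
      rw [ms_smul]
      exact mul_le_mul_of_nonneg_left h2 (abs_nonneg _)
  obtain ⟨B, M, hB, hM, h⟩ := key (N + 1)
  exact ⟨B, M, hB, by linarith, fun n σ => h n σ (Nat.lt_succ_of_le (deg_le σ))⟩

lemma sum_exp_le {t : ℝ} (ht : 0 < t) (m : ℕ) :
    ∑ n ∈ range m, Real.exp (-(t * n)) ≤ (1 - Real.exp (-t))⁻¹ := by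
  have h0 : Real.exp (-t) < 1 := Real.exp_lt_one_iff.2 (by linarith)
  have h1 : ∀ n : ℕ, Real.exp (-(t * n)) = Real.exp (-t) ^ n := fun n => by
    rw [← Real.exp_nat_mul]
    congr 1
    ring
  simp only [h1]
  rw [← tsum_geometric_of_lt_one (Real.exp_pos _).le h0]
  exact (summable_geometric_of_lt_one (Real.exp_pos _).le h0).sum_le_tsum _
    fun n _ => by positivity

lemma sum_apply' {κ : Type} (F : Finset κ) (T : κ → E S) (ξ : S →₀ ℝ) :
    (∑ k ∈ F, T k) ξ = ∑ k ∈ F, T k ξ := by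
  classical
  induction F using Finset.induction_on with
  | empty => simp
  | insert a F ha ih => rw [sum_insert ha, sum_insert ha, add_apply, ih]

end

/-- The global contraction. -/
theorem exists_J {Γ X Δ : Type} [Group Γ] [MetricSpace X] [MulAction Γ X] [IsIsometricSMul Γ X]
    [MulAction Γ Δ] {o : X} {nil : Δ} {deg : Δ → ℕ} {N : ℕ} {w : Δ → ℝ} {sg : Γ → Δ → ℝ}
    {π : Γ →* E Δ} {d h : E Δ} {z : ℕ → Δ → X} {D C t0 : ℝ}
    (hco : ∃ D : ℝ, ∀ x, ∃ g : Γ, dist x (g • o) ≤ D)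
    (smul_nil : ∀ g : Γ, g • nil = nil) (deg_zero : ∀ σ, deg σ = 0 ↔ σ = nil)
    (deg_smul : ∀ (g : Γ) σ, deg (g • σ) = deg σ) (deg_le : ∀ σ, deg σ ≤ N)
    (w_nil : w nil = 0) (w0 : ∀ σ, 0 ≤ w σ) (w_fin : ∀ W : ℝ, {σ | w σ ≤ W}.Finite)
    (w_smul : ∀ (g : Γ) σ, |w (g • σ) - w σ| ≤ dist o (g • o))
    (sg_sq : ∀ g σ, sg g σ = 1 ∨ sg g σ = -1)
    (π_col : ∀ g σ, col (π g) σ = Finsupp.single (g • σ) (sg g σ))
    (d_sq : d * d = 0) (π_d : ∀ g, π g * d = d * π g)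
    (d_sup : ∀ σ τ, col d σ τ ≠ 0 → deg τ + 1 = deg σ ∧ w τ ≤ w σ)
    (h_sup : ∀ σ τ, col h σ τ ≠ 0 → deg τ = deg σ + 1 ∧ w τ ≤ w σ)
    (d_ms : ∀ σ, ms (col d σ) ≤ C)
    (K_ms : ∀ σ, ms (col (cj w t0 (1 - d * h - h * d)) σ) ≤ 1 / 2)
    (z0 : ∀ (g : Γ) σ, σ ≠ nil → w (g⁻¹ • σ) ≤ dist (g • o) (z 0 σ))
    (zs : ∀ n σ, dist (z n σ) (z (n + 1) σ) ≤ D)
    (zd : ∀ n σ τ, col d σ τ ≠ 0 → τ ≠ nil → dist (z n τ) (z n σ) ≤ D)
    (zo : ∀ (n : ℕ) σ, dist o (z n σ) ≤ max (w σ - n) 0) :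
    ∃ J : E Δ, d * J + J * d = 1 ∧ (∀ σ τ, col J σ τ ≠ 0 → deg τ = deg σ + 1) ∧
      ∀ t : ℝ, 0 < t → ∃ A : ℝ, ∀ σ, ms (col (cj w t J) σ) ≤ A := by
  classical
  obtain ⟨j, hj, hjs⟩ := exists_j w_fin d_sq d_sup h_sup K_ms
  obtain ⟨D0, hD0⟩ := hco
  have hD00 : 0 ≤ D0 := by
    obtain ⟨g, hg⟩ := hD0 o
    exact dist_nonneg.trans hg
  have hD : 0 ≤ D := dist_nonneg.trans (zs 0 nil)
  obtain ⟨u, hu, hu1⟩ : ∃ u : X → Γ, (∀ x, dist x (u x • o) ≤ D0) ∧ u o = 1 := by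
    choose u hu using hD0
    refine ⟨fun x => if x = o then 1 else u x, fun x => ?_, if_pos rfl⟩
    by_cases hx : x = o
    · simpa [hx] using hD00
    · simpa [hx] using hu x
  have deg_d : ∀ σ τ, col d σ τ ≠ 0 → deg τ < deg σ := fun σ τ h => by
    have := (d_sup σ τ h).1
    omega
  have d_nil : col d nil = 0 := Finsupp.ext fun τ => by
    by_contra hτ
    have := deg_d nil τ hτ
    rw [(deg_zero nil).2 rfl] at this
    omega
  have hW : ∀ (x y : X) τ, w ((u x)⁻¹ • τ) ≤ w ((u y)⁻¹ • τ) + (dist x y + 2 * D0) := by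
    intro x y τ
    have h1 := w_smul ((u x)⁻¹ * u y) ((u y)⁻¹ • τ)
    rw [smul_smul, mul_inv_cancel_right, mul_smul, ← dist_smul (u x) o, smul_inv_smul] at h1
    linarith [(abs_le.1 h1).2, dist_triangle4 (u x • o) x y (u y • o), hu x, hu y,
      dist_comm x (u x • o)]
  have hπ : ∀ (g : Γ) (P : Δ → Prop) (ξ : Δ →₀ ℝ), Sup (fun τ => P (g • τ)) ξ →
      Sup P (π g ξ) ∧ ms (π g ξ) ≤ ms ξ := fun g P ξ hξ => by
    refine ⟨Sup.app fun σ hσ => ?_, ?_⟩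
    · rw [π_col]
      exact Sup.single P (hξ σ hσ) _
    · refine (ms_app (M := 1) fun σ _ => ?_).trans (one_mul _).le
      rw [π_col, ms_single]
      rcases sg_sq g σ with h | h <;> simp [h]
  set jv : Γ → E Δ := fun g => π g * j * π g⁻¹ with hjv
  have hjv1 : ∀ g, d * jv g + jv g * d = 1 := fun g => by
    have : d * jv g + jv g * d = π g * (d * j + j * d) * π g⁻¹ := by
      simp only [hjv, mul_add, add_mul, ← mul_assoc, π_d]
      rw [mul_assoc _ (π g⁻¹) d, π_d, ← mul_assoc]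
    rw [this, hj, mul_one, ← map_mul, mul_inv_cancel, map_one]
  have hjv2 : ∀ B : ℝ, ∃ M : ℝ, 0 ≤ M ∧ ∀ (g : Γ) k ξ,
      Sup (fun τ => w (g⁻¹ • τ) ≤ B ∧ deg τ + 1 = k) ξ →
      Sup (fun τ => w (g⁻¹ • τ) ≤ B ∧ deg τ = k) (jv g ξ) ∧ ms (jv g ξ) ≤ M * ms ξ := by
    intro B
    obtain ⟨M, hM⟩ := ((w_fin B).image fun σ => ms (col j σ)).bddAbove
    refine ⟨max M 0, le_max_right _ _, fun g k ξ hξ => ?_⟩
    have h1 := hπ g⁻¹ (fun τ => w τ ≤ B ∧ deg τ + 1 = k) ξ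
      (hξ.mono fun τ hτ => ⟨hτ.1, by rw [deg_smul, hτ.2]⟩)
    have h2 : Sup (fun τ => w τ ≤ B ∧ deg τ = k) (j (π g⁻¹ ξ)) := Sup.app fun σ hσ τ hτ =>
      ⟨(hjs σ τ hτ).1.trans (h1.1 σ hσ).1, (hjs σ τ hτ).2.trans (h1.1 σ hσ).2⟩
    have h3 : ms (j (π g⁻¹ ξ)) ≤ max M 0 * ms (π g⁻¹ ξ) :=
      ms_app fun σ hσ => le_max_of_le_left (hM ⟨σ, (h1.1 σ hσ).1, rfl⟩)
    have h4 := hπ g (fun τ => w (g⁻¹ • τ) ≤ B ∧ deg τ = k) _
      (h2.mono fun τ hτ => ⟨by rw [inv_smul_smul]; exact hτ.1, by rw [deg_smul, hτ.2]⟩)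
    exact ⟨h4.1, h4.2.trans (h3.trans (mul_le_mul_of_nonneg_left h1.2 (le_max_right _ _)))⟩
  have hb := fun (A f : ℕ → E Δ) (s : ℝ) (e : ℕ) (B0 M0 : ℝ) => rec_bound (nil := nil) deg_le
    (fun σ τ h => (d_sup σ τ h).1) d_ms (W := fun n σ τ => w ((u (z n σ))⁻¹ • τ))
    (fun n σ => by rw [smul_nil, w_nil]) (D := D + 2 * D0) (by linarith)
    (fun n σ σ' h h' τ => by
      linarith [hW (z n σ) (z n σ') τ, zd n σ σ' h h', dist_comm (z n σ) (z n σ')])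
    (j := fun n σ => jv (u (z n σ)))
    (fun B => (hjv2 B).imp fun M hM => ⟨hM.1, fun n σ => hM.2 _⟩)
    (A := A) (f := f) (s := s) (e := e) (B0 := B0) (M0 := M0)
  choose c hc using fun n : ℕ => exists_rec deg_le deg_d fun σ y =>
    if σ = nil then Finsupp.single nil (1 : ℝ) else jv (u (z n σ)) (col 0 σ + (1 : ℝ) • y)
  have hc0 : ∀ n, col (c n) nil = Finsupp.single nil 1 := fun n => (hc n nil).trans (if_pos rfl)
  have hc1 := fun n σ (hσ : σ ≠ nil) => (hc n σ).trans (if_neg hσ)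
  have hcd : ∀ n, d * c n = c n * d := fun n => by
    have := rec_chain (nil := nil) d_sq deg_d (fun σ => hjv1 (u (z n σ))) (A := 0) (s := 1)
      (by simp) (by rw [hc0, d_nil, apply_single, d_nil]; simp) (hc1 n)
    rwa [zero_add, one_smul] at this
  obtain ⟨B1, M1, hB1, hM1, hc2⟩ := hb (fun _ => 0) c 1 0 0 0
    (fun n σ _ => ⟨Sup.zero _, by simp [ms]⟩)
    (fun n => by
      rw [hc0]
      exact ⟨Sup.single _ ⟨rfl, rfl⟩ _, by rw [ms_single, abs_one]⟩) hc1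
  set cc : ℕ → E Δ := fun n => Nat.casesOn n 1 c with hcc
  have hccd : ∀ n, d * cc n = cc n * d := fun n => by
    cases n with
    | zero => simp [hcc]
    | succ n => exact hcd n
  have hcc0 : ∀ n, col (cc n) nil = Finsupp.single nil 1 := fun n => by
    cases n with
    | zero => rfl
    | succ n => exact hc0 n
  choose G hG using fun n : ℕ => exists_rec deg_le deg_d fun σ y =>
    if σ = nil then 0 else jv (u (z n σ)) (col (cc n - cc (n + 1)) σ + (-1 : ℝ) • y)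
  have hG0 : ∀ n, col (G n) nil = 0 := fun n => (hG n nil).trans (if_pos rfl)
  have hG1 := fun n σ (hσ : σ ≠ nil) => (hG n σ).trans (if_neg hσ)
  have hGd : ∀ n, d * G n + G n * d = cc n - cc (n + 1) := fun n => by
    have := rec_chain (nil := nil) d_sq deg_d (fun σ => hjv1 (u (z n σ)))
      (A := cc n - cc (n + 1)) (s := -1)
      (by rw [neg_neg, one_smul, mul_sub, sub_mul, hccd n, hccd (n + 1)])
      (by rw [hG0, d_nil, col_sub, hcc0 n, hcc0 (n + 1)]; simp) (hG1 n)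
    rw [this, neg_one_smul, neg_add_cancel_right]
  obtain ⟨B2, M2, hB2, hM2, hG2⟩ := hb (fun n => cc n - cc (n + 1)) G (-1) 1 (B1 + D + 2 * D0)
    (max 1 M1 + M1) (fun n σ hσ => by
      have h1 : Sup (fun τ => w ((u (z n σ))⁻¹ • τ) ≤ B1 + D + 2 * D0 ∧ deg τ + 1 = deg σ + 1)
          (col (cc n) σ) ∧ ms (col (cc n) σ) ≤ max 1 M1 := by
        cases n with
        | zero =>
          refine ⟨Sup.single _ (σ := σ) ⟨?_, rfl⟩ 1,
            le_max_of_le_left ((ms_single σ 1).trans abs_one).le⟩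
          linarith [z0 (u (z 0 σ)) σ hσ, hu (z 0 σ), dist_comm (z 0 σ) (u (z 0 σ) • o)]
        | succ n =>
          refine ⟨(hc2 n σ).1.mono fun τ hτ => ⟨?_, by rw [hτ.2]⟩, le_max_of_le_right (hc2 n σ).2⟩
          linarith [hW (z (n + 1) σ) (z n σ) τ, zs n σ, hτ.1, dist_comm (z n σ) (z (n + 1) σ)]
      exact ⟨h1.1.sub ((hc2 n σ).1.mono fun τ hτ => ⟨by linarith [hτ.1], by rw [hτ.2]⟩),
        (ms_sub _ _).trans (add_le_add h1.2 (hc2 n σ).2)⟩)
    (fun n => by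
      rw [hG0]
      exact ⟨Sup.zero _, by simp [ms]⟩) hG1
  set Q : E Δ := ofCol fun σ => if σ = nil then Finsupp.single nil 1 else 0 with hQ
  have hz : ∀ (n : ℕ) σ, w σ ≤ n → jv (u (z n σ)) = j := fun n σ hσ => by
    have h1 := zo n σ
    rw [max_eq_right (by linarith), dist_le_zero] at h1
    rw [← h1, hu1, hjv]
    simp
  have hQd : d * Q = 0 := ext_col fun σ => by
    rw [col_mul, hQ, col_ofCol]
    split_ifs
    · exact d_nil
    · simp
  have hinf : ∀ (n : ℕ) σ, w σ ≤ n → col (c n) σ = col (Q + j * Q * d) σ := fun n =>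
    face_ind deg_d fun σ ih hσ => by
      by_cases hn : σ = nil
      · rw [hn, hc0, col_add, col_mul, d_nil, map_zero, add_zero, hQ, col_ofCol, if_pos rfl]
      have h1 : c n (col d σ) = (Q + j * Q * d) (col d σ) :=
        app_congr fun τ hτ => ih τ hτ ((d_sup σ τ hτ).2.trans hσ)
      have h2 : d (col d σ) = 0 := by rw [← col_mul, d_sq, col_zero]
      rw [hc1 n σ hn, hz n σ hσ, h1, col_zero, zero_add, one_smul, add_apply, mul_apply, h2,
        map_zero, add_zero, col_add, col_mul, mul_apply, hQ, col_ofCol, if_neg hn, zero_add]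
  have hG3 : ∀ (n : ℕ) σ, w σ ≤ n → col (G (n + 1)) σ = 0 := fun n =>
    face_ind deg_d fun σ ih hσ => by
      by_cases hn : σ = nil
      · rw [hn, hG0]
      have h1 : G (n + 1) (col d σ) = (0 : E Δ) (col d σ) :=
        app_congr fun τ hτ => ih τ hτ ((d_sup σ τ hτ).2.trans hσ)
      have h2 : col (cc (n + 1) - cc (n + 1 + 1)) σ = 0 := by
        rw [col_sub, sub_eq_zero]
        exact (hinf n σ hσ).trans (hinf (n + 1) σ (by push_cast; linarith)).symm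
      rw [hG1 _ σ hn, h1, h2, zero_apply, smul_zero, add_zero, map_zero]
  set J0 : E Δ := ofCol fun σ => ∑ n ∈ range (⌈w σ⌉₊ + 1), col (G n) σ with hJ0
  have hJ1 : ∀ (m : ℕ) σ, w σ ≤ m → col J0 σ = col (∑ n ∈ range (m + 1), G n) σ := by
    intro m σ hσ
    rw [hJ0, col_ofCol, col, sum_apply']
    refine sum_subset (range_subset_range.2 (Nat.succ_le_succ (Nat.ceil_le.2 hσ))) fun n _ hn => ?_
    obtain ⟨k, rfl⟩ : ∃ k, n = k + 1 := ⟨n - 1, by rw [mem_range] at hn; omega⟩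
    exact hG3 k σ (Nat.ceil_le.1 (by rw [mem_range] at hn; omega))
  have hjQ : ∀ σ, col (j * Q) σ = if σ = nil then col j nil else 0 := fun σ => by
    rw [col_mul, hQ, col_ofCol]
    split_ifs
    · rfl
    · simp
  refine ⟨J0 + j * Q, ext_col fun σ => ?_, fun σ => ?_, fun t ht => ?_⟩
  · have h1 : J0 (col d σ) = (∑ n ∈ range (⌈w σ⌉₊ + 1), G n) (col d σ) :=
      app_congr fun τ hτ => hJ1 _ τ ((d_sup σ τ hτ).2.trans (Nat.le_ceil _))
    have h2 : d * (∑ n ∈ range (⌈w σ⌉₊ + 1), G n) + (∑ n ∈ range (⌈w σ⌉₊ + 1), G n) * d =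
        1 - c ⌈w σ⌉₊ := by
      rw [mul_sum, sum_mul, ← sum_add_distrib, sum_congr rfl fun n _ => hGd n, sum_range_sub']
      rfl
    have h3 : d * (j * Q) = Q := by
      rw [← mul_assoc, eq_sub_of_add_eq hj, sub_mul, one_mul, mul_assoc, hQd, mul_zero, sub_zero]
    have h4 : col (d * J0 + J0 * d) σ = col (1 - (Q + j * Q * d)) σ := by
      rw [col_add, col_mul, col_mul, h1, hJ1 _ σ (Nat.le_ceil _), ← col_mul, ← col_mul, ← col_add,
        h2, col_sub, col_sub, hinf _ σ (Nat.le_ceil _)]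
    have h5 : d * (J0 + j * Q) + (J0 + j * Q) * d = (d * J0 + J0 * d) + (Q + j * Q * d) := by
      rw [mul_add, add_mul, h3]
      abel
    rw [h5, col_add, h4, ← col_add, sub_add_cancel]
  · refine Sup.add (P := fun τ => deg τ = deg σ + 1) (ξ := col J0 σ) (η := col (j * Q) σ) ?_ ?_
    · rw [hJ0, col_ofCol]
      exact Sup.sum fun n _ => (hG2 n σ).1.mono fun τ hτ => hτ.2
    · rw [hjQ]
      split_ifs with hn
      · exact (hjs nil).mono fun τ hτ => hn ▸ hτ.2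
      · exact Sup.zero _
  · refine ⟨Real.exp (t * (B2 + 2 * D0 + 1)) * M2 * (1 - Real.exp (-t))⁻¹ + ms (col j nil),
      fun σ => ?_⟩
    have hp : ∀ τ, 0 ≤ Real.exp (t * (w τ - w σ)) := fun τ => (Real.exp_pos _).le
    rw [ms_col_cj, col_add]
    refine (nm_add_le hp _ _).trans (add_le_add ?_ ?_)
    · rw [hJ0, col_ofCol]
      refine (nm_sum_le hp _ _).trans (le_trans (sum_le_sum fun n hn => ?_)
        ((mul_sum _ _ _).symm.le.trans (mul_le_mul_of_nonneg_left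
          (sum_exp_le ht (⌈w σ⌉₊ + 1)) (by positivity))))
      refine (nm_le_of (c := Real.exp (t * (B2 + 2 * D0 + 1)) * Real.exp (-(t * n)))
        fun τ hτ => ?_).trans ?_
      · rw [← Real.exp_add, Real.exp_le_exp, ← mul_neg, ← mul_add]
        refine mul_le_mul_of_nonneg_left ?_ ht.le
        have h1 := ((hG2 n σ).1 τ (Finsupp.mem_support_iff.1 hτ)).1
        have h2 := hW o (z n σ) τ
        rw [hu1, inv_one, one_smul] at h2
        have h3 : (n : ℝ) ≤ ⌈w σ⌉₊ := by exact_mod_cast Nat.lt_succ_iff.1 (mem_range.1 hn)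
        have h4 := Nat.ceil_lt_add_one (w0 σ)
        have h5 : max (w σ - n) 0 ≤ w σ - n + 1 := max_le (by linarith) (by linarith)
        linarith [zo n σ]
      · rw [mul_right_comm]
        exact mul_le_mul_of_nonneg_right (mul_le_mul_of_nonneg_left (hG2 n σ).2 (by positivity))
          (by positivity)
    · rw [hjQ]
      split_ifs with hn
      · refine (nm_le_of (c := 1) fun τ hτ => ?_).trans (one_mul _).le
        rw [Real.exp_le_one_iff, hn]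
        exact mul_nonpos_of_nonneg_of_nonpos ht.le
          (sub_nonpos.2 (hjs nil τ (Finsupp.mem_support_iff.1 hτ)).1)
      · rw [nm_zero]
        exact ms_nonneg _

end Pool.Agent.Lib.BCC.J47
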