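import Pool.Agent.Lib.BCC.AC

/-! Restriction of matrices to a subset, and commutators with weights. -/

noncomputable section

open Finset Filter

namespace Pool.Agent.Lib.BCC

variable {I : Type} {S : I → Prop}

/-- Restriction of a matrix to a subset of the index set. -/
def res (S : I → Prop) (T : E I) : E (Subtype S) := ofCol fun σ => (col T σ.1).subtypeDomain S

lemma col_res (T : E I) (σ : Subtype S) : col (res S T) σ = (col T σ.1).subtypeDomain S :=
  col_ofCol _ σ

lemma col_res_apply (T : E I) (σ τ : Subtype S) : col (res S T) σ τ = col T σ.1 τ.1 := by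
  rw [col_res, Finsupp.subtypeDomain_apply]

lemma res_congr {T T' : E I} (h : ∀ σ, S σ → col T σ = col T' σ) : res S T = res S T' :=
  ext_col fun σ => by rw [col_res, col_res, h σ.1 σ.2]

lemma res_add (T T' : E I) : res S (T + T') = res S T + res S T' :=
  ext_col fun σ => Finsupp.ext fun τ => by simp [col_res_apply]

lemma res_sub (T T' : E I) : res S (T - T') = res S T - res S T' :=
  ext_col fun σ => Finsupp.ext fun τ => by simp [col_res_apply]

lemma res_zero : res S (0 : E I) = 0 :=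
  ext_col fun σ => Finsupp.ext fun τ => by simp [col_res_apply]

lemma res_one : res S (1 : E I) = 1 := by
  classical
  exact ext_col fun σ => Finsupp.ext fun τ => by
    simp [col_res_apply, Finsupp.single_apply, Subtype.ext_iff]

lemma res_mul (T' : E I) {T : E I} (h : ∀ σ, S σ → Sp S (col T σ)) :
    res S (T' * T) = res S T' * res S T := by
  classical
  refine ext_col fun σ => Finsupp.ext fun τ => ?_
  rw [col_res_apply, col_mul, col_mul, apply_eq_sum, apply_eq_sum, Finsupp.finsetSum_apply,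
    Finsupp.finsetSum_apply, col_res, Finsupp.support_subtypeDomain,
    ← sum_subtype_of_mem _ fun κ hκ => h σ.1 σ.2 κ (Finsupp.mem_support_iff.1 hκ)]
  exact sum_congr (by congr) fun κ _ => by simp [col_res_apply]

lemma nm_res {φ : I → ℝ} (hφ : ∀ τ, 0 ≤ φ τ) (T : E I) (σ : Subtype S) :
    nm (fun τ => φ τ.1) (col (res S T) σ) ≤ nm φ (col T σ.1) := by
  refine le_trans (le_of_eq ?_)
    (sum_le_nm hφ _ ((col (res S T) σ).support.map (Function.Embedding.subtype S)))
  rw [sum_map, nm]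
  exact sum_congr rfl fun τ _ => by rw [col_res_apply]; rfl

lemma ms_res (T : E I) (σ : Subtype S) : ms (col (res S T) σ) ≤ ms (col T σ.1) := by
  rw [ms_eq_nm, ms_eq_nm]
  exact nm_res (φ := fun _ => 1) (fun _ => zero_le_one) T σ

lemma tendsto_of_mul_le {w f : I → ℝ} (fin : ∀ W : ℝ, {σ | w σ ≤ W}.Finite) (f0 : ∀ σ, 0 ≤ f σ)
    {C : ℝ} (h : ∀ σ, f σ * w σ ≤ C) : Tendsto f cofinite (nhds 0) := by
  refine tendsto_order.2 ⟨fun a ha => Eventually.of_forall fun σ => ha.trans_le (f0 σ),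
    fun a ha => eventually_cofinite.2 ((fin (|C| / a)).subset fun σ hσ => ?_)⟩
  simp only [Set.mem_ofPred_eq, not_lt] at hσ ⊢
  rw [le_div_iff₀ ha]
  rcases le_total (w σ) 0 with h1 | h1
  · nlinarith [abs_nonneg C]
  · nlinarith [h σ, le_abs_self C]

lemma abs_exp_sub {a b c : ℝ} (ha : a ≤ c) (hb : b ≤ c) :
    |Real.exp a - Real.exp b| ≤ Real.exp c * |a - b| := by
  have h : ∀ a b : ℝ, a ≤ c → Real.exp a - Real.exp b ≤ Real.exp c * |a - b| := fun a b ha => by
    have h1 := Real.add_one_le_exp (b - a)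
    have h2 : Real.exp b = Real.exp a * Real.exp (b - a) := by rw [← Real.exp_add]; congr 1; ring
    have h3 := Real.exp_le_exp.2 ha
    have h4 := Real.exp_pos a
    nlinarith [le_abs_self (a - b), abs_nonneg (a - b)]
  rw [abs_sub_le_iff]
  exact ⟨h a b ha, by rw [abs_sub_comm]; exact h b a hb⟩

theorem d_comm_of {Γ : Type} [Group Γ] [MulAction Γ I] {π d : E I} {g : Γ} {sg w : I → ℝ}
    {l C N : ℝ} (hsg : ∀ σ, |sg σ| = 1) (hπ : ∀ σ, col π σ = Finsupp.single (g • σ) (sg σ))
    (hd : π * d = d * π) (dm : ∀ σ, ms (col d σ) ≤ N) (w0 : ∀ σ, 0 ≤ w σ)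
    (fin : ∀ W : ℝ, {σ | w σ ≤ W}.Finite) (hw : ∀ σ, |w (g • σ) - w σ| ≤ l) (hC : 0 ≤ C)
    (ds : ∀ σ τ, col d σ τ ≠ 0 → w τ ≤ w σ ∧
      (w τ = 0 ∨ |w (g • σ) - w σ - (w (g • τ) - w τ)| * w σ ≤ C)) {t : ℝ} (ht : 0 < t) (u : ℝ) :
    Tendsto (fun σ => ms (col (cj w t d * cj w u π - cj w u π * cj w t d) σ)) cofinite (nhds 0) := by
  classical
  have p1 : ∀ (ξ : I →₀ ℝ) τ, π ξ (g • τ) = sg τ * ξ τ := fun ξ τ => by
    rw [apply_eq_sum, Finsupp.finsetSum_apply, sum_eq_single τ]
    · simp [hπ, mul_comm]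
    · intro σ _ h
      simp [hπ, h]
    · intro h
      simp [Finsupp.notMem_support_iff.1 h]
  set br : I → I → ℝ := fun σ τ =>
    Real.exp (u * (w (g • σ) - w σ) + t * (w (g • τ) - w (g • σ))) -
      Real.exp (u * (w (g • τ) - w τ) + t * (w τ - w σ)) with hbr
  have p2 : ∀ σ, col (cj w t d * cj w u π - cj w u π * cj w t d) σ = π (dgl (br σ) (col d σ)) := by
    intro σ
    ext κ
    obtain ⟨τ, rfl⟩ : ∃ τ, κ = g • τ := ⟨g⁻¹ • κ, (smul_inv_smul g κ).symm⟩
    have h1 : sg τ * col d σ τ = sg σ * col d (g • σ) (g • τ) := by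
      rw [← p1, ← col_mul, hd, col_mul, hπ, apply_single, Finsupp.smul_apply, smul_eq_mul]
    have h2 : col (cj w u π) σ =
        Finsupp.single (g • σ) (Real.exp (u * (w (g • σ) - w σ)) * sg σ) := by
      ext κ
      rw [col_cj, hπ, Finsupp.single_apply, Finsupp.single_apply]
      split_ifs with h
      · rw [h]
      · rw [mul_zero]
    have h3 : ∀ ξ, cj w u π ξ (g • τ) = Real.exp (u * (w (g • τ) - w τ)) * (sg τ * ξ τ) :=
      fun ξ => by
        rw [cj, mul_apply, mul_apply, dgl_apply, p1, dgl_apply, mul_sub, sub_eq_add_neg,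
          Real.exp_add]
        ring
    rw [col_sub, col_mul, col_mul, h2, apply_single, Finsupp.sub_apply, h3, Finsupp.smul_apply,
      col_cj, col_cj, p1, dgl_apply, hbr, smul_eq_mul]
    simp only [Real.exp_add]
    linear_combination (-Real.exp (u * (w (g • σ) - w σ)) *
      Real.exp (t * (w (g • τ) - w (g • σ)))) * h1
  set B := Real.exp (|u| * l + 2 * t * l) * |u - t| * (C + 2 * |l| / t) with hB
  have B0 : 0 ≤ B := by positivity
  refine tendsto_of_mul_le fin (fun σ => ms_nonneg _) (C := B * N) fun σ => ?_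
  rcases (w0 σ).eq_or_lt with h0 | h0
  · rw [← h0, mul_zero]
    exact mul_nonneg B0 ((ms_nonneg _).trans (dm σ))
  have p3 : ∀ τ, col d σ τ ≠ 0 → |br σ τ| ≤ B / w σ := fun τ h => by
    obtain ⟨h1, h2⟩ := ds σ τ h
    have a1 := abs_le.1 (hw σ)
    have a2 := abs_le.1 (hw τ)
    have a3 : ∀ κ, u * (w (g • κ) - w κ) ≤ |u| * l := fun κ => (le_abs_self _).trans (by
      rw [abs_mul]
      exact mul_le_mul_of_nonneg_left (hw κ) (abs_nonneg u))
    have l0 : 0 ≤ l := (abs_nonneg _).trans (hw σ)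
    have a4 := abs_exp_sub (c := |u| * l + 2 * t * l + -(t * (w σ - w τ)))
      (a := u * (w (g • σ) - w σ) + t * (w (g • τ) - w (g • σ)))
      (b := u * (w (g • τ) - w τ) + t * (w τ - w σ)) (by nlinarith [a3 σ]) (by nlinarith [a3 τ])
    have a5 : u * (w (g • σ) - w σ) + t * (w (g • τ) - w (g • σ)) -
        (u * (w (g • τ) - w τ) + t * (w τ - w σ)) =
        (u - t) * (w (g • σ) - w σ - (w (g • τ) - w τ)) := by ring
    rw [a5, abs_mul, Real.exp_add (|u| * l + 2 * t * l)] at a4
    rw [le_div_iff₀ h0]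
    refine (mul_le_mul_of_nonneg_right a4 h0.le).trans ?_
    have a6 : Real.exp (-(t * (w σ - w τ))) * (|w (g • σ) - w σ - (w (g • τ) - w τ)| * w σ) ≤
        C + 2 * |l| / t := by
      rcases h2 with h2 | h2
      · have b1 : Real.exp (-(t * w σ)) * w σ ≤ 1 / t := by
          rw [le_div_iff₀ ht, Real.exp_neg, mul_assoc, inv_mul_le_iff₀ (Real.exp_pos _)]
          nlinarith [Real.add_one_le_exp (t * w σ)]
        have b2 : |w (g • σ) - w σ - (w (g • τ) - w τ)| ≤ 2 * |l| :=
          abs_le.2 ⟨by linarith [le_abs_self l], by linarith [le_abs_self l]⟩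
        have b3 := mul_le_mul b2 b1 (by positivity) (by positivity)
        rw [mul_one_div] at b3
        rw [h2, sub_zero (w σ), mul_left_comm, ← h2]
        linarith
      · have b1 : Real.exp (-(t * (w σ - w τ))) ≤ 1 := Real.exp_le_one_iff.2 (by nlinarith)
        have b2 := mul_le_mul b1 h2 (by positivity) zero_le_one
        have b3 : 0 ≤ 2 * |l| / t := by positivity
        linarith
    refine le_trans (le_of_eq (by ring)) (mul_le_mul_of_nonneg_left a6
      (a := Real.exp (|u| * l + 2 * t * l) * |u - t|) (by positivity))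
  have p4 := ms_apply_le π (dgl (br σ) (col d σ)) (A := 1) fun κ _ => by rw [hπ, ms_single, hsg]
  have p5 := ms_apply_le (dgl (br σ)) (col d σ) (A := B / w σ) fun τ h => by
    rw [col_dgl, ms_single]
    exact p3 τ h
  have p6 := mul_le_mul_of_nonneg_left (dm σ) (div_nonneg B0 h0.le)
  rw [p2, ← le_div_iff₀ h0, mul_div_right_comm]
  linarith

end Pool.Agent.Lib.BCC
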